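import Pool.Agent.Lib.SGP.Klem

/-!
# Rank one: few edges

If the valuation at `p` is injective on the subgroup `M` of `ℚˣ` and `x ≠ 0`, then among `m` rationals there are at most
`2 m log₂ m` pairs `(y, y')` with `y - y' ∈ x M`.
-/

set_option autoImplicit false

namespace Pool.Agent.Lib.SGP

open Finset

/-- pairs of `Y` with difference in `x M` -/
noncomputable def edges (M : Subgroup ℚˣ) (x : ℚ) (Y : Finset ℚ) : Finset (ℚ × ℚ) := by
  classical
  exact (Y ×ˢ Y).filter (fun s => ∃ μ ∈ M, s.1 - s.2 = x * ((μ : ℚˣ) : ℚ))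

lemma mem_edges {M : Subgroup ℚˣ} {x : ℚ} {Y : Finset ℚ} {s : ℚ × ℚ} : s ∈ edges M x Y ↔
    (s.1 ∈ Y ∧ s.2 ∈ Y) ∧ ∃ μ ∈ M, s.1 - s.2 = x * ((μ : ℚˣ) : ℚ) := by
  classical
  rw [edges, mem_filter, mem_product]

lemma val_sub_eq (p : ℕ) [Fact p.Prime] {a b : ℚ} (ha : a ≠ 0)
    (h : b = 0 ∨ padicValRat p a < padicValRat p b) :
    padicValRat p (a - b) = padicValRat p a := by
  rcases h with h | h
  · rw [h, sub_zero]
  · have hb : b ≠ 0 ∨ b = 0 := ne_or_eq b 0
    rcases hb with hb | hb
    · have hne : a + -b ≠ 0 := by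
        intro h0
        have : a = b := by linarith
        rw [this] at h
        exact lt_irrefl _ h
      rw [sub_eq_add_neg]
      exact padicValRat.add_eq_of_lt hne ha (neg_ne_zero.2 hb) (by rw [padicValRat.neg]; exact h)
    · rw [hb, sub_zero]

theorem card_edges (p : ℕ) (hp : p.Prime) (M : Subgroup ℚˣ)
    (hM : ∀ μ ∈ M, padicValRat p ((μ : ℚˣ) : ℚ) = 0 → μ = 1) (x : ℚ) (hx : x ≠ 0) :
    ∀ (m : ℕ) (Y : Finset ℚ), Y.card = m → (edges M x Y).card ≤ 2 * m * Nat.log 2 m := by
  classical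
  have : Fact p.Prime := ⟨hp⟩
  intro m
  induction m using Nat.strong_induction_on with
  | _ m ih =>
  intro Y hY
  rcases (edges M x Y).eq_empty_or_nonempty with h0 | hne
  · rw [h0]
    simp
  -- an edge of minimal valuation
  obtain ⟨⟨y0, y1⟩, he, hmin⟩ := exists_min_image (edges M x Y)
    (fun s => padicValRat p (s.1 - s.2)) hne
  rw [mem_edges] at he
  obtain ⟨⟨hy0, hy1⟩, μ0, hμ0, hμe⟩ := he
  simp only at hy0 hy1 hμe hmin
  have hne01 : y0 - y1 ≠ 0 := by
    rw [hμe]
    exact mul_ne_zero hx μ0.ne_zero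
  set k : ℤ := padicValRat p (y0 - y1) with hk
  set C : Finset ℚ := Y.filter (fun y => y = y0 ∨ k < padicValRat p (y - y0)) with hC
  set R : Finset ℚ := Y.filter (fun y => ¬ (y = y0 ∨ k < padicValRat p (y - y0))) with hR
  have hsum : C.card + R.card = m := by
    rw [← hY]
    exact card_filter_add_card_filter_not _
  have hC0 : y0 ∈ C := by
    rw [hC, mem_filter]
    exact ⟨hy0, Or.inl rfl⟩
  have hR1 : y1 ∈ R := by
    rw [hR, mem_filter]
    refine ⟨hy1, ?_⟩
    push Not
    refine ⟨fun h => hne01 (by rw [h, sub_self]), ?_⟩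
    have : padicValRat p (y1 - y0) = k := by
      rw [hk, ← padicValRat.neg, neg_sub]
    rw [this]
  have hCpos : 0 < C.card := card_pos.2 ⟨_, hC0⟩
  have hRpos : 0 < R.card := card_pos.2 ⟨_, hR1⟩
  -- an edge between C and R has valuation k
  have hcross : ∀ y ∈ C, ∀ z ∈ R, padicValRat p (z - y) ≤ k := by
    intro y hy z hz
    rw [hC, mem_filter] at hy
    rw [hR, mem_filter] at hz
    have hz2 := hz.2
    push Not at hz2
    have h1 : padicValRat p ((z - y0) - (y - y0)) = padicValRat p (z - y0) := by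
      apply val_sub_eq p (sub_ne_zero.2 hz2.1)
      rcases hy.2 with h | h
      · left
        rw [h, sub_self]
      · right
        exact lt_of_le_of_lt hz2.2 h
    have h2 : (z - y0) - (y - y0) = z - y := by ring
    rw [h2] at h1
    rw [h1]
    exact hz2.2
  have huniq : ∀ μ ∈ M, padicValRat p (x * ((μ : ℚˣ) : ℚ)) = k → μ = μ0 := by
    intro μ hμ h
    have h1 : padicValRat p (x * ((μ0 : ℚˣ) : ℚ)) = k := by rw [← hμe]
    rw [padicValRat.mul hx μ.ne_zero] at h
    rw [padicValRat.mul hx μ0.ne_zero] at h1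
    have h2 : padicValRat p (((μ * μ0⁻¹ : ℚˣ)) : ℚ) = 0 := by
      push_cast
      rw [padicValRat.mul μ.ne_zero (inv_ne_zero μ0.ne_zero), padicValRat.inv]
      linarith
    exact mul_inv_eq_one.1 (hM _ (M.mul_mem hμ (M.inv_mem hμ0)) h2)
  -- edges from C to R and from R to C
  set E1 : Finset (ℚ × ℚ) := (C ×ˢ R).filter (fun s => s.1 - s.2 = x * ((μ0 : ℚˣ) : ℚ)) with hE1
  set E2 : Finset (ℚ × ℚ) := (R ×ˢ C).filter (fun s => s.1 - s.2 = x * ((μ0 : ℚˣ) : ℚ)) with hE2
  have hmatch : ∀ P Q : Finset ℚ,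
      ((P ×ˢ Q).filter (fun s => s.1 - s.2 = x * ((μ0 : ℚˣ) : ℚ))).card ≤ P.card ∧
      ((P ×ˢ Q).filter (fun s => s.1 - s.2 = x * ((μ0 : ℚˣ) : ℚ))).card ≤ Q.card := by
    intro P Q
    constructor
    · refine card_le_card_of_injOn (fun s => s.1) ?_ ?_
      · intro s hs
        rw [mem_coe, mem_filter, mem_product] at hs
        exact hs.1.1
      · intro s hs s' hs' hss
        rw [mem_coe, mem_filter] at hs hs'
        have e1 := hs.2
        have e2 := hs'.2
        simp only at hss
        exact Prod.ext hss (by linarith)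
    · refine card_le_card_of_injOn (fun s => s.2) ?_ ?_
      · intro s hs
        rw [mem_coe, mem_filter, mem_product] at hs
        exact hs.1.2
      · intro s hs s' hs' hss
        rw [mem_coe, mem_filter] at hs hs'
        have e1 := hs.2
        have e2 := hs'.2
        simp only at hss
        exact Prod.ext (by linarith) hss
  have hsub : edges M x Y ⊆ (edges M x C ∪ edges M x R) ∪ (E1 ∪ E2) := by
    intro s hs
    have hval := hmin s hs
    rw [mem_edges] at hs
    obtain ⟨⟨h1, h2⟩, μ, hμ, hμs⟩ := hs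
    have hYCR : ∀ y ∈ Y, y ∈ C ∨ y ∈ R := by
      intro y hy
      by_cases h : y = y0 ∨ k < padicValRat p (y - y0)
      · left; rw [hC, mem_filter]; exact ⟨hy, h⟩
      · right; rw [hR, mem_filter]; exact ⟨hy, h⟩
    rw [mem_union, mem_union, mem_union, mem_edges, mem_edges]
    rcases hYCR s.1 h1 with c1 | c1 <;> rcases hYCR s.2 h2 with c2 | c2
    · exact Or.inl (Or.inl ⟨⟨c1, c2⟩, μ, hμ, hμs⟩)
    · right; left
      have h3 := hcross s.1 c1 s.2 c2
      have h4 : padicValRat p (s.1 - s.2) = k := by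
        apply le_antisymm _ hval
        rw [← padicValRat.neg, neg_sub]
        exact h3
      rw [hμs] at h4
      rw [hE1, mem_filter, mem_product, ← huniq μ hμ h4]
      exact ⟨⟨c1, c2⟩, hμs⟩
    · right; right
      have h3 := hcross s.2 c2 s.1 c1
      have h4 : padicValRat p (s.1 - s.2) = k := le_antisymm h3 hval
      rw [hμs] at h4
      rw [hE2, mem_filter, mem_product, ← huniq μ hμ h4]
      exact ⟨⟨c1, c2⟩, hμs⟩
    · exact Or.inl (Or.inr ⟨⟨c1, c2⟩, μ, hμ, hμs⟩)
  have hCm : C.card < m := by omega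
  have hRm : R.card < m := by omega
  have i1 := ih C.card hCm C rfl
  have i2 := ih R.card hRm R rfl
  have hcount : (edges M x Y).card ≤ (edges M x C).card + (edges M x R).card +
      (E1.card + E2.card) := by
    refine (card_le_card hsub).trans ((card_union_le _ _).trans ?_)
    exact Nat.add_le_add (card_union_le _ _) (card_union_le _ _)
  have final : ∀ s u : ℕ, 0 < s → s ≤ u → s + u = m →
      2 * s * Nat.log 2 s + 2 * u * Nat.log 2 u + 2 * s ≤ 2 * m * Nat.log 2 m := by
    intro s u hs hsu hm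
    have l1 : Nat.log 2 s + 1 ≤ Nat.log 2 m := by
      have : Nat.log 2 (s * 2) = Nat.log 2 s + 1 := Nat.log_mul_base (by norm_num) hs.ne'
      rw [← this]
      exact Nat.log_mono_right (by omega)
    have l2 : Nat.log 2 u ≤ Nat.log 2 m := Nat.log_mono_right (by omega)
    calc 2 * s * Nat.log 2 s + 2 * u * Nat.log 2 u + 2 * s
        = 2 * s * (Nat.log 2 s + 1) + 2 * u * Nat.log 2 u := by ring
      _ ≤ 2 * s * Nat.log 2 m + 2 * u * Nat.log 2 m := by gcongr
      _ = 2 * m * Nat.log 2 m := by rw [← hm]; ring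
  have hE1c := hmatch C R
  have hE2c := hmatch R C
  rcases le_total C.card R.card with h | h
  · have := final C.card R.card hCpos h hsum
    have a1 : E1.card ≤ C.card := hE1c.1
    have a2 : E2.card ≤ C.card := hE2c.2
    omega
  · have := final R.card C.card hRpos h (by omega)
    have a1 : E1.card ≤ R.card := hE1c.2
    have a2 : E2.card ≤ R.card := hE2c.1
    omega

end Pool.Agent.Lib.SGP
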