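import Mathlib

/-!
# Kovari-Sos-Turan, in counting form

Proof. For `z ∈ Y` let `deg z = #{y ∈ Y : (y, z) ∈ R}`. Then `R.card = ∑ z ∈ Y, deg z`, and by the power mean inequality
(`inner_le_nnorm_mul_nnorm`-type lemmas; for naturals `Finset.sum_pow_le_pow_sum`-converse: use
`Real.pow_arith_mean_le_arith_mean_pow` or `inner`; e.g. `Finset.inner ...`; the statement needed is
`(∑ z ∈ Y, d z) ^ s ≤ Y.card ^ (s - 1) * ∑ z ∈ Y, d z ^ s`, which in Mathlib is `Finset.pow_sum_le...` or
`inner_le_Lp_mul_Lq`) `R.card ^ s ≤ Y.card ^ (s - 1) * ∑ deg z ^ s`. The last sum is the number of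
pairs `(f, z)`, `f : Fin s → Y`, `z ∈ Y`, with `(f l, z) ∈ R` for all `l` (`Fintype.piFinset`). Pairs with injective `f`: at
most `Y.card ^ s * t` by `h`. Non-injective `f`: there are at most `s ^ 2 * Y.card ^ (s - 1)` of them (two equal
coordinates `l ≠ l'`, at most `s ^ 2` choices, and for given `l, l'` the function `f` is determined by its values outside
`l`), each with at most `Y.card` values `z`. Together `∑ deg z ^ s ≤ (s ^ 2 + t) * Y.card ^ s`.
-/

set_option autoImplicit false

namespace Pool.Agent.Lib.SGP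

open Finset

namespace KstAux

/-- functions with two equal coordinates -/
theorem card_eq_le {α : Type*} [DecidableEq α] (Y : Finset α) (n : ℕ) (l l' : Fin (n + 1))
    (hl : l ≠ l') :
    ((Fintype.piFinset fun _ : Fin (n + 1) => Y).filter (fun f => f l = f l')).card ≤
      Y.card ^ n := by
  have h1 : (Fintype.piFinset fun _ : {j : Fin (n + 1) // j ≠ l} => Y).card = Y.card ^ n := by
    rw [Fintype.card_piFinset, Finset.prod_const, Finset.card_univ]
    congr 1
    simp
  rw [← h1]
  refine Finset.card_le_card_of_injOn (fun f j => f j.1) ?_ ?_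
  · intro f hf
    have hf' := Finset.mem_filter.1 (Finset.mem_coe.1 hf)
    rw [Fintype.mem_piFinset] at hf'
    simp only [Finset.mem_coe, Fintype.mem_piFinset]
    exact fun j => hf'.1 j.1
  · intro f hf g hg hfg
    have hf' := (Finset.mem_filter.1 (Finset.mem_coe.1 hf)).2
    have hg' := (Finset.mem_filter.1 (Finset.mem_coe.1 hg)).2
    have h2 : ∀ j, j ≠ l → f j = g j := fun j hj => congrFun hfg ⟨j, hj⟩
    funext j
    by_cases hj : j = l
    · rw [hj, hf', hg', h2 l' (Ne.symm hl)]
    · exact h2 j hj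

/-- functions which are not injective -/
theorem card_noninj {α : Type*} [DecidableEq α] (Y : Finset α) (n : ℕ) :
    ((Fintype.piFinset fun _ : Fin (n + 1) => Y).filter
      (fun f => ¬ Function.Injective f)).card ≤ (n + 1) ^ 2 * Y.card ^ n := by
  classical
  have hsub : (Fintype.piFinset fun _ : Fin (n + 1) => Y).filter
      (fun f => ¬ Function.Injective f) ⊆
      (Finset.univ : Finset (Fin (n + 1))).offDiag.biUnion
        (fun p => (Fintype.piFinset fun _ : Fin (n + 1) => Y).filter (fun f => f p.1 = f p.2)) := by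
    intro f hf
    rw [Finset.mem_filter] at hf
    obtain ⟨hf1, hf2⟩ := hf
    rw [Function.Injective] at hf2
    push Not at hf2
    obtain ⟨a, b, hab, hne⟩ := hf2
    rw [Finset.mem_biUnion]
    refine ⟨(a, b), ?_, Finset.mem_filter.2 ⟨hf1, hab⟩⟩
    simp [Finset.mem_offDiag, hne]
  refine (Finset.card_le_card hsub).trans ?_
  refine Finset.card_biUnion_le.trans ?_
  have h1 : ∀ p ∈ (Finset.univ : Finset (Fin (n + 1))).offDiag,
      ((Fintype.piFinset fun _ : Fin (n + 1) => Y).filter (fun f => f p.1 = f p.2)).card ≤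
        Y.card ^ n := by
    intro p hp
    exact card_eq_le Y n p.1 p.2 (Finset.mem_offDiag.1 hp).2.2
  refine (Finset.sum_le_sum h1).trans ?_
  rw [Finset.sum_const, smul_eq_mul]
  refine Nat.mul_le_mul_right _ ?_
  have h2 : (Finset.univ : Finset (Fin (n + 1))).offDiag.card ≤ (n + 1) * (n + 1) := by
    rw [Finset.offDiag_card]
    simp
  rw [sq]
  exact h2

end KstAux

theorem kst {α : Type*} [DecidableEq α] (Y : Finset α) (R : Finset (α × α)) (hR : R ⊆ Y ×ˢ Y)
    (s t : ℕ) (hs : 1 ≤ s)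
    (h : ∀ f : Fin s → α, Function.Injective f → (∀ l, f l ∈ Y) →
      (Y.filter (fun z => ∀ l, (f l, z) ∈ R)).card ≤ t) :
    R.card ^ s ≤ (s ^ 2 + t) * Y.card ^ (2 * s - 1) := by
  classical
  obtain ⟨n, rfl⟩ : ∃ n, s = n + 1 := ⟨s - 1, by omega⟩
  let d : α → ℕ := fun z => (Y.filter (fun y => (y, z) ∈ R)).card
  let PY := Fintype.piFinset fun _ : Fin (n + 1) => Y
  have hRcard : R.card = ∑ z ∈ Y, d z := by
    rw [Finset.card_eq_sum_card_fiberwise (f := Prod.snd) (t := Y)
      (fun p hp => (Finset.mem_product.1 (hR hp)).2)]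
    refine Finset.sum_congr rfl fun z _ => ?_
    refine Finset.card_bij (fun p _ => p.1) ?_ ?_ ?_
    · intro p hp
      obtain ⟨hp1, hp2⟩ := Finset.mem_filter.1 hp
      refine Finset.mem_filter.2 ⟨(Finset.mem_product.1 (hR hp1)).1, ?_⟩
      rw [← hp2]
      exact hp1
    · intro p hp q hq hpq
      have h1 := (Finset.mem_filter.1 hp).2
      have h2 := (Finset.mem_filter.1 hq).2
      exact Prod.ext hpq (h1.trans h2.symm)
    · intro y hy
      obtain ⟨_, hy2⟩ := Finset.mem_filter.1 hy
      exact ⟨(y, z), Finset.mem_filter.2 ⟨hy2, rfl⟩, rfl⟩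
  have hdz : ∀ z, d z ^ (n + 1) = (PY.filter (fun f => ∀ l, (f l, z) ∈ R)).card := by
    intro z
    have h1 : (Fintype.piFinset fun _ : Fin (n + 1) => Y.filter (fun y => (y, z) ∈ R)).card =
        d z ^ (n + 1) := by
      rw [Fintype.card_piFinset, Finset.prod_const, Finset.card_univ, Fintype.card_fin]
    rw [← h1]
    congr 1
    ext f
    simp only [Fintype.mem_piFinset, Finset.mem_filter, PY]
    constructor
    · intro h2
      exact ⟨fun l => (h2 l).1, fun l => (h2 l).2⟩
    · rintro ⟨h2, h3⟩ l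
      exact ⟨h2 l, h3 l⟩
  have hdouble : ∑ z ∈ Y, d z ^ (n + 1) =
      ∑ f ∈ PY, (Y.filter (fun z => ∀ l, (f l, z) ∈ R)).card := by
    simp only [hdz, Finset.card_filter]
    rw [Finset.sum_comm]
  have hinj : ∑ f ∈ PY.filter (fun f => Function.Injective f),
      (Y.filter (fun z => ∀ l, (f l, z) ∈ R)).card ≤ Y.card ^ (n + 1) * t := by
    have h1 : ∀ f ∈ PY.filter (fun f => Function.Injective f),
        (Y.filter (fun z => ∀ l, (f l, z) ∈ R)).card ≤ t := by
      intro f hf
      obtain ⟨hf1, hf2⟩ := Finset.mem_filter.1 hf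
      exact h f hf2 (Fintype.mem_piFinset.1 hf1)
    refine (Finset.sum_le_sum h1).trans ?_
    rw [Finset.sum_const, smul_eq_mul]
    refine Nat.mul_le_mul_right _ ?_
    refine (Finset.card_filter_le _ _).trans ?_
    show (Fintype.piFinset fun _ : Fin (n + 1) => Y).card ≤ _
    rw [Fintype.card_piFinset, Finset.prod_const, Finset.card_univ, Fintype.card_fin]
  have hnon : ∑ f ∈ PY.filter (fun f => ¬ Function.Injective f),
      (Y.filter (fun z => ∀ l, (f l, z) ∈ R)).card ≤ (n + 1) ^ 2 * Y.card ^ (n + 1) := by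
    have h1 : ∀ f ∈ PY.filter (fun f => ¬ Function.Injective f),
        (Y.filter (fun z => ∀ l, (f l, z) ∈ R)).card ≤ Y.card :=
      fun f _ => Finset.card_filter_le _ _
    refine (Finset.sum_le_sum h1).trans ?_
    rw [Finset.sum_const, smul_eq_mul]
    refine (Nat.mul_le_mul_right _ (KstAux.card_noninj Y n)).trans ?_
    rw [pow_succ Y.card n, mul_assoc]
  have hsum : ∑ z ∈ Y, d z ^ (n + 1) ≤ ((n + 1) ^ 2 + t) * Y.card ^ (n + 1) := by
    rw [hdouble, ← Finset.sum_filter_add_sum_filter_not PY (fun f => Function.Injective f)]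
    calc _ ≤ Y.card ^ (n + 1) * t + (n + 1) ^ 2 * Y.card ^ (n + 1) := add_le_add hinj hnon
      _ = _ := by ring
  have hpow : (∑ z ∈ Y, d z) ^ (n + 1) ≤ Y.card ^ n * ∑ z ∈ Y, d z ^ (n + 1) :=
    pow_sum_le_card_mul_sum_pow (fun i _ => Nat.zero_le _) n
  rw [hRcard]
  refine hpow.trans ((Nat.mul_le_mul_left _ hsum).trans (le_of_eq ?_))
  have e : 2 * (n + 1) - 1 = n + (n + 1) := by omega
  rw [e, pow_add]
  ring

end Pool.Agent.Lib.SGP
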