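import Pool.Agent.Lib.SGP.Klem
import Pool.Agent.Lib.SGP.Kst

/-!
# Pairs of equal valuations and given difference

`M` is a subgroup of `ℚˣ` on which `vv p` is injective, the set `A` of positive integers has at most `m` classes `cls`, and
two elements of one class differ by a factor in `M`.

Proof of `card_level`. `cls` is injective on the set: `a = b μ` and `vv p a = vv p b` give `vv p μ = 0`, `μ = 1`.

Proof of `card_diff_pow`. Call `w, w' : Fin r → ℤ` equivalent if `w - w' = vv p μ` for some `μ ∈ M` (an equivalence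
relation; `vv p` is additive on nonzero rationals). Choose a representative `ω w` of the class of `w`
(`Quotient.out`). For `a ∈ A` choose `μ_a ∈ M` with `vv p μ_a = vv p a - ω (vv p a)` and put `y a = a / μ_a`, so
`vv p (y a) = ω (vv p a)`. Facts: (F1) if `cls a = cls b` then `y a = y b`: `a / b ∈ M`, so `vv p a`, `vv p b` are
equivalent, `ω` agrees, and `y a / y b ∈ M` has `vv p = 0`, so it is 1. So `Y = A.image y` has at most `m` elements.
(F2) if `vv p a = vv p b` then `μ_a = μ_b` (the quotient is in `M` with `vv p = 0`).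
Let `R` be the set of `(y, y') ∈ Y × Y` with `y - y' = x * μ` for some `μ ∈ M`. For `(a, b)` in the set to be counted,
`y a - y b = (a - b) / μ_a = x * μ_a⁻¹`, so `(y a, y b) ∈ R`; the map `(a, b) ↦ (y a, y b)` is injective there:
`y a - y b = x / μ_a` determines `μ_a = μ_b` (as `x ≠ 0`), and then `a`, `b`. So the number is at most `R.card`, and
`R.card ^ (r + 1) ≤ ((r + 1) ^ 2 + t) * Y.card ^ (2 * (r + 1) - 1)` by `kst` with `s = r + 1` and `klem`.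
-/

set_option autoImplicit false

namespace Pool.Agent.Lib.SGP

open Finset

namespace NormAux

theorem vv_mul {r : ℕ} (p : Fin r → ℕ) (hp : ∀ k, (p k).Prime) {a b : ℚ} (ha : a ≠ 0) (hb : b ≠ 0) :
    vv p (a * b) = vv p a + vv p b := by
  funext k
  haveI := Fact.mk (hp k)
  exact padicValRat.mul ha hb

theorem vv_inv {r : ℕ} (p : Fin r → ℕ) (hp : ∀ k, (p k).Prime) (a : ℚ) :
    vv p (a⁻¹) = - vv p a := by
  funext k
  haveI := Fact.mk (hp k)
  exact padicValRat.inv a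

theorem vv_unit_mul {r : ℕ} (p : Fin r → ℕ) (hp : ∀ k, (p k).Prime) (a b : ℚˣ) :
    vv p ((a * b : ℚˣ) : ℚ) = vv p (a : ℚ) + vv p (b : ℚ) := by
  rw [Units.val_mul]
  exact vv_mul p hp a.ne_zero b.ne_zero

theorem vv_unit_inv {r : ℕ} (p : Fin r → ℕ) (hp : ∀ k, (p k).Prime) (a : ℚˣ) :
    vv p ((a⁻¹ : ℚˣ) : ℚ) = - vv p (a : ℚ) := by
  rw [Units.val_inv_eq_inv_val]
  exact vv_inv p hp _

theorem card_image_le_of_factor {α β γ : Type*} [DecidableEq β] [DecidableEq γ] (A : Finset α)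
    (f : α → β) (g : α → γ) (h : ∀ a ∈ A, ∀ b ∈ A, f a = f b → g a = g b) :
    (A.image g).card ≤ (A.image f).card := by
  classical
  have h1 : (A.image f).card = (A.image fun a => (f a, g a)).card := by
    refine Finset.card_bij (fun i hi => (i, g (Finset.mem_image.1 hi).choose)) ?_ ?_ ?_
    · intro i hi
      have h2 := (Finset.mem_image.1 hi).choose_spec
      refine Finset.mem_image.2 ⟨(Finset.mem_image.1 hi).choose, h2.1, ?_⟩
      rw [h2.2]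
    · intro i hi j hj hij
      exact (Prod.mk.inj hij).1
    · intro c hc
      obtain ⟨a, ha, rfl⟩ := Finset.mem_image.1 hc
      have hi : f a ∈ A.image f := Finset.mem_image_of_mem f ha
      have h2 := (Finset.mem_image.1 hi).choose_spec
      refine ⟨f a, hi, ?_⟩
      exact Prod.ext rfl (h _ h2.1 a ha h2.2)
  rw [h1]
  have h3 : A.image g = (A.image fun a => (f a, g a)).image Prod.snd := by
    rw [Finset.image_image]
    rfl
  rw [h3]
  exact Finset.card_image_le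

end NormAux

theorem card_level {r : ℕ} (p : Fin r → ℕ) (hp : ∀ k, (p k).Prime) (M : Subgroup ℚˣ)
    (hM : ∀ μ ∈ M, vv p ((μ : ℚˣ) : ℚ) = 0 → μ = 1) (A : Finset ℤ) (hpos : ∀ a ∈ A, 0 < a)
    {ι : Type*} [DecidableEq ι] (cls : ℤ → ι)
    (hcls : ∀ a ∈ A, ∀ b ∈ A, cls a = cls b → ∃ μ ∈ M, (a : ℚ) = b * ((μ : ℚˣ) : ℚ))
    (m : ℕ) (hm : (A.image cls).card ≤ m) (w : Fin r → ℤ) :
    (A.filter (fun a : ℤ => vv p (a : ℚ) = w)).card ≤ m := by
  refine le_trans ?_ hm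
  refine Finset.card_le_card_of_injOn cls ?_ ?_
  · intro a ha
    exact Finset.mem_coe.2 (Finset.mem_image_of_mem cls (Finset.mem_filter.1 (Finset.mem_coe.1 ha)).1)
  · intro a ha b hb hab
    obtain ⟨ha1, ha2⟩ := Finset.mem_filter.1 (Finset.mem_coe.1 ha)
    obtain ⟨hb1, hb2⟩ := Finset.mem_filter.1 (Finset.mem_coe.1 hb)
    obtain ⟨μ, hμ, h1⟩ := hcls a ha1 b hb1 hab
    have hb0 : (b : ℚ) ≠ 0 := by
      have := hpos b hb1
      exact_mod_cast this.ne'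
    have h2 : vv p (a : ℚ) = vv p (b : ℚ) + vv p (μ : ℚ) := by
      rw [h1]
      exact NormAux.vv_mul p hp hb0 μ.ne_zero
    rw [ha2, hb2] at h2
    have h3 : vv p (μ : ℚ) = 0 := by
      have := h2.symm
      rwa [add_eq_left] at this
    have h4 := hM μ hμ h3
    rw [h4] at h1
    rw [Units.val_one, mul_one] at h1
    exact_mod_cast h1

theorem card_diff_pow (r : ℕ) : ∃ t : ℕ, ∀ (p : Fin r → ℕ), (∀ k, (p k).Prime) →
    ∀ M : Subgroup ℚˣ, (∀ μ ∈ M, vv p ((μ : ℚˣ) : ℚ) = 0 → μ = 1) →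
    ∀ A : Finset ℤ, (∀ a ∈ A, 0 < a) → ∀ {ι : Type} [DecidableEq ι] (cls : ℤ → ι),
    (∀ a ∈ A, ∀ b ∈ A, cls a = cls b → ∃ μ ∈ M, (a : ℚ) = b * ((μ : ℚˣ) : ℚ)) →
    ∀ m : ℕ, (A.image cls).card ≤ m → ∀ x : ℤ, x ≠ 0 →
    ((A ×ˢ A).filter (fun s => vv p (s.1 : ℚ) = vv p (s.2 : ℚ) ∧ s.1 - s.2 = x)).card ^ (r + 1)
      ≤ t * m ^ (2 * r + 1) := by
  classical
  obtain ⟨t, ht⟩ := klem r
  refine ⟨(r + 1) ^ 2 + t, ?_⟩
  intro p hp M hM A hpos ι _ cls hcls m hm x hx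
  let E : Setoid (Fin r → ℤ) :=
    { r := fun w w' => ∃ μ ∈ M, vv p ((μ : ℚˣ) : ℚ) = w - w'
      iseqv :=
        { refl := fun w => ⟨1, M.one_mem, by
            rw [sub_self]
            funext k
            show padicValRat (p k) ((1 : ℚˣ) : ℚ) = 0
            rw [Units.val_one, padicValRat.one]⟩
          symm := fun {w w'} ⟨μ, hμ, h⟩ => ⟨μ⁻¹, M.inv_mem hμ, by
            rw [NormAux.vv_unit_inv p hp, h, neg_sub]⟩
          trans := fun {w w' w''} ⟨μ, hμ, h⟩ ⟨ν, hν, h'⟩ => ⟨μ * ν, M.mul_mem hμ hν, by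
            rw [NormAux.vv_unit_mul p hp, h, h', sub_add_sub_cancel]⟩ } }
  let ω : (Fin r → ℤ) → (Fin r → ℤ) := fun w => (Quotient.mk E w).out
  have hω : ∀ w, ∃ μ ∈ M, vv p ((μ : ℚˣ) : ℚ) = w - ω w := by
    intro w
    exact E.symm (Quotient.mk_out (s := E) w)
  have hωeq : ∀ w w' : Fin r → ℤ, (∃ μ ∈ M, vv p ((μ : ℚˣ) : ℚ) = w - w') → ω w = ω w' := by
    intro w w' h
    have h1 : Quotient.mk E w = Quotient.mk E w' := Quotient.sound (s := E) h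
    show (Quotient.mk E w).out = (Quotient.mk E w').out
    rw [h1]
  choose f hfM hf using hω
  let y : ℤ → ℚ := fun a => (a : ℚ) * (((f (vv p (a : ℚ)))⁻¹ : ℚˣ) : ℚ)
  have hy : ∀ a : ℤ, (a : ℚ) = y a * ((f (vv p (a : ℚ)) : ℚˣ) : ℚ) := by
    intro a
    show (a : ℚ) = (a : ℚ) * (((f (vv p (a : ℚ)))⁻¹ : ℚˣ) : ℚ) * ((f (vv p (a : ℚ)) : ℚˣ) : ℚ)
    rw [mul_assoc, ← Units.val_mul, inv_mul_cancel, Units.val_one, mul_one]
  have hF1 : ∀ a ∈ A, ∀ b ∈ A, cls a = cls b → y a = y b := by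
    intro a ha b hb hab
    obtain ⟨μ, hμ, h1⟩ := hcls a ha b hb hab
    have hb0 : (b : ℚ) ≠ 0 := by
      have := hpos b hb
      exact_mod_cast this.ne'
    have h2 : vv p (a : ℚ) = vv p (b : ℚ) + vv p (μ : ℚ) := by
      rw [h1]
      exact NormAux.vv_mul p hp hb0 μ.ne_zero
    have h3 : ω (vv p (a : ℚ)) = ω (vv p (b : ℚ)) := by
      refine hωeq _ _ ⟨μ, hμ, ?_⟩
      rw [h2, add_sub_cancel_left]
    have h4 : μ * f (vv p (b : ℚ)) * (f (vv p (a : ℚ)))⁻¹ = 1 := by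
      refine hM _ (M.mul_mem (M.mul_mem hμ (hfM _)) (M.inv_mem (hfM _))) ?_
      rw [NormAux.vv_unit_mul p hp, NormAux.vv_unit_mul p hp, NormAux.vv_unit_inv p hp, hf, hf, h3,
        h2]
      abel
    have h5 : (f (vv p (a : ℚ)))⁻¹ = μ⁻¹ * (f (vv p (b : ℚ)))⁻¹ := by
      have h6 : (μ * f (vv p (b : ℚ)))⁻¹ = (f (vv p (a : ℚ)))⁻¹ := inv_eq_of_mul_eq_one_right h4
      rw [← h6, mul_inv]
    show (a : ℚ) * (((f (vv p (a : ℚ)))⁻¹ : ℚˣ) : ℚ) = (b : ℚ) * (((f (vv p (b : ℚ)))⁻¹ : ℚˣ) : ℚ)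
    rw [h5, Units.val_mul, h1]
    have h7 : ((μ : ℚˣ) : ℚ) * ((μ⁻¹ : ℚˣ) : ℚ) = 1 := by
      rw [← Units.val_mul, mul_inv_cancel, Units.val_one]
    calc (b : ℚ) * (μ : ℚ) * (((μ⁻¹ : ℚˣ) : ℚ) * (((f (vv p (b : ℚ)))⁻¹ : ℚˣ) : ℚ))
        = (b : ℚ) * (((μ : ℚˣ) : ℚ) * ((μ⁻¹ : ℚˣ) : ℚ)) * (((f (vv p (b : ℚ)))⁻¹ : ℚˣ) : ℚ) := by
          ring
      _ = (b : ℚ) * (((f (vv p (b : ℚ)))⁻¹ : ℚˣ) : ℚ) := by rw [h7, mul_one]
  have hYm : (A.image y).card ≤ m := (NormAux.card_image_le_of_factor A cls y hF1).trans hm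
  let R : Finset (ℚ × ℚ) := (A.image y ×ˢ A.image y).filter
    (fun s => ∃ μ ∈ M, s.1 - s.2 = (x : ℚ) * ((μ : ℚˣ) : ℚ))
  have hxq : (x : ℚ) ≠ 0 := by exact_mod_cast hx
  have hkey : ∀ a b : ℤ, vv p (a : ℚ) = vv p (b : ℚ) → a - b = x →
      y a - y b = (x : ℚ) * (((f (vv p (a : ℚ)))⁻¹ : ℚˣ) : ℚ) := by
    intro a b hab hx'
    show (a : ℚ) * (((f (vv p (a : ℚ)))⁻¹ : ℚˣ) : ℚ) - (b : ℚ) * (((f (vv p (b : ℚ)))⁻¹ : ℚˣ) : ℚ) = _
    rw [← hab, ← sub_mul, ← hx']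
    push_cast
    ring
  have hcount : ((A ×ˢ A).filter
      (fun s => vv p (s.1 : ℚ) = vv p (s.2 : ℚ) ∧ s.1 - s.2 = x)).card ≤ R.card := by
    refine Finset.card_le_card_of_injOn (fun s => (y s.1, y s.2)) ?_ ?_
    · intro s hs
      obtain ⟨hs1, hs2, hs3⟩ := Finset.mem_filter.1 (Finset.mem_coe.1 hs)
      obtain ⟨ha, hb⟩ := Finset.mem_product.1 hs1
      refine Finset.mem_coe.2 (Finset.mem_filter.2 ⟨Finset.mem_product.2
        ⟨Finset.mem_image_of_mem y ha, Finset.mem_image_of_mem y hb⟩, ?_⟩)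
      exact ⟨(f (vv p (s.1 : ℚ)))⁻¹, M.inv_mem (hfM _), hkey s.1 s.2 hs2 hs3⟩
    · intro s hs s' hs' hss
      obtain ⟨hs1, hs2, hs3⟩ := Finset.mem_filter.1 (Finset.mem_coe.1 hs)
      obtain ⟨hs1', hs2', hs3'⟩ := Finset.mem_filter.1 (Finset.mem_coe.1 hs')
      have h1 : y s.1 = y s'.1 := congrArg Prod.fst hss
      have h2 : y s.2 = y s'.2 := congrArg Prod.snd hss
      have h3 := hkey s.1 s.2 hs2 hs3
      rw [h1, h2, hkey s'.1 s'.2 hs2' hs3'] at h3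
      have h4 := mul_left_cancel₀ hxq h3
      have h5 : f (vv p (s'.1 : ℚ)) = f (vv p (s.1 : ℚ)) := inv_injective (Units.ext h4)
      have h6 : (s.1 : ℚ) = (s'.1 : ℚ) := by
        rw [hy s.1, hy s'.1, h1, h5]
      have h7 : (s.2 : ℚ) = (s'.2 : ℚ) := by
        rw [hy s.2, hy s'.2, h2, ← hs2, ← hs2', h5]
      exact Prod.ext (by exact_mod_cast h6) (by exact_mod_cast h7)
  have hRk : R.card ^ (r + 1) ≤ ((r + 1) ^ 2 + t) * (A.image y).card ^ (2 * (r + 1) - 1) := by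
    refine kst (A.image y) R (Finset.filter_subset _ _) (r + 1) t (by omega) ?_
    intro g hg hgY
    refine ht p hp M hM (x : ℚ) hxq g hg _ ?_
    intro z hz l
    have h1 := (Finset.mem_filter.1 hz).2 l
    exact (Finset.mem_filter.1 h1).2
  have h2r : 2 * (r + 1) - 1 = 2 * r + 1 := by omega
  rw [h2r] at hRk
  calc ((A ×ˢ A).filter
      (fun s => vv p (s.1 : ℚ) = vv p (s.2 : ℚ) ∧ s.1 - s.2 = x)).card ^ (r + 1)
      ≤ R.card ^ (r + 1) := Nat.pow_le_pow_left hcount _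
    _ ≤ ((r + 1) ^ 2 + t) * (A.image y).card ^ (2 * r + 1) := hRk
    _ ≤ ((r + 1) ^ 2 + t) * m ^ (2 * r + 1) :=
        Nat.mul_le_mul_left _ (Nat.pow_le_pow_left hYm _)

end Pool.Agent.Lib.SGP
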