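import Pool.Agent.Lib.SGP.Klem
import Pool.Agent.Lib.CSid.Primes

/-!
# Primes and the group of ratios

Proof (adapt `exists_primes` of `Pool/Agent/Lib/CSid/Primes.lean`). Let `I` be the finite type of pairs `(a, b) ∈ A × A`
with `x a = x b`, `ρ (a, b) = a / b` (a positive rational). `a / b = ∏ i, g i ^ (E a i - E b i)` as real numbers, so
`log ρ = ∑ i, (E a i - E b i) * log |g i|` (`x a ≠ 0` because `a ≠ 0`; take absolute values). As in `exists_primes`, for the
vectors `X (a, b) = (padicValRat q (a / b))_q : Nat.Primes → ℚ` every relation of the exponent vectors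
`E a - E b` (in `Fin r → ℚ`) is a relation of the `X`; so the span `V` of the `X` has dimension at most `r`
(`finrank_span_le_of_rel`), and by `exists_coords` there are primes `Q j`, `j : Fin r`, such that `y ∈ V` and
`y (Q j) = 0` for all `j` imply `y = 0`. Let `p j = Q j` and let `M` be the subgroup of `ℚˣ` generated by the
units `a / b`, `(a, b) ∈ I` (`Subgroup.closure`). By `Subgroup.closure_induction` every `μ ∈ M` is positive and its vector
`(padicValRat q μ)_q` is in `V`. If `vv p μ = 0` then the whole vector vanishes, so all valuations of `μ` are 0 and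
`μ > 0`: `μ = 1` (e.g. `padicValRat` determines numerator and denominator: `μ.num.natAbs` and `μ.den` are
coprime with the same valuations, so equal; as in the end of `exists_primes`).
-/

set_option autoImplicit false

namespace Pool.Agent.Lib.SGP

open Finset Module Pool.Agent.Lib.CSid

namespace PrimAux

/-- a positive rational number all of whose valuations vanish is 1 -/
lemma eq_one_of_val {q : ℚ} (hq : 0 < q) (h : ∀ p : ℕ, p.Prime → padicValRat p q = 0) :
    q = 1 := by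
  have hnum : q.num.natAbs ≠ 0 := Int.natAbs_ne_zero.2 (Rat.num_pos.2 hq).ne'
  have h1 : q.num.natAbs = q.den := by
    refine (Nat.eq_iff_prime_padicValNat_eq _ _ hnum q.den_ne_zero).2 fun p hp => ?_
    have h2 := h p hp
    rw [padicValRat_def] at h2
    unfold padicValInt at h2
    omega
  have h2 : q.num = (q.den : ℤ) := by
    rw [← h1, Int.natAbs_of_nonneg (Rat.num_pos.2 hq).le]
  have h3 := Rat.num_div_den q
  rw [h2] at h3
  have h4 : ((q.den : ℕ) : ℚ) ≠ 0 := by exact_mod_cast q.den_ne_zero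
  rw [← h3]
  push_cast
  exact div_self h4

lemma core {r : ℕ} {I : Type*} [Fintype I] (ρ : I → ℚ) (hρ : ∀ i, 0 < ρ i) (L : Fin r → ℝ)
    (e : I → Fin r → ℤ) (hL : ∀ i, Real.log (ρ i : ℝ) = ∑ k, (e i k : ℝ) * L k) :
    ∃ (p : Fin r → ℕ) (M : Subgroup ℚˣ), (∀ k, (p k).Prime) ∧
      (∀ μ ∈ M, vv p ((μ : ℚˣ) : ℚ) = 0 → μ = 1) ∧
      ∀ i, ∃ μ ∈ M, ρ i = ((μ : ℚˣ) : ℚ) := by
  classical
  set x : I → (Nat.Primes → ℚ) := fun a q => (padicValRat q.1 (ρ a) : ℚ) with hx
  have hrel : ∀ c : I → ℚ, ∑ a, c a • (fun i => (e a i : ℚ) : Fin r → ℚ) = 0 →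
      ∑ a, c a • x a = 0 := by
    intro c hc
    obtain ⟨N, n, hN, hn⟩ := exists_int_mul c
    have hN' : (N : ℚ) ≠ 0 := by exact_mod_cast hN
    have h1 : ∀ i, ∑ a : I, (n a : ℚ) * (e a i : ℚ) = 0 := by
      intro i
      have h2 := congrFun hc i
      simp only [Finset.sum_apply, Pi.smul_apply, smul_eq_mul, Pi.zero_apply] at h2
      have h3 : ∑ a : I, (n a : ℚ) * (e a i : ℚ) = N * ∑ a : I, c a * (e a i : ℚ) := by
        rw [mul_sum]
        refine sum_congr rfl fun a _ => ?_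
        rw [← hn a]
        ring
      rw [h3, h2, mul_zero]
    have h2 : ∏ a : I, (ρ a) ^ n a = 1 := by
      have h3 : ((∏ a : I, (ρ a) ^ n a : ℚ) : ℝ) = 1 := by
        apply Real.eq_one_of_pos_of_log_eq_zero
        · exact_mod_cast prod_pos fun a _ => zpow_pos (hρ a) _
        · push_cast
          rw [Real.log_prod (fun a _ => zpow_ne_zero _ (by exact_mod_cast (hρ a).ne'))]
          simp only [Real.log_zpow, hL]
          have h4 : ∀ a : I, (n a : ℝ) * ∑ i, (e a i : ℝ) * L i =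
              ∑ i, ((n a : ℝ) * (e a i : ℝ)) * L i := by
            intro a
            rw [mul_sum]
            exact sum_congr rfl fun i _ => by ring
          rw [sum_congr rfl fun a _ => h4 a, sum_comm]
          refine sum_eq_zero fun i _ => ?_
          rw [← sum_mul]
          have h5 : ∑ a : I, (n a : ℝ) * (e a i : ℝ) = 0 := by exact_mod_cast h1 i
          rw [h5, zero_mul]
      exact_mod_cast h3
    funext q
    have : Fact q.1.Prime := ⟨q.2⟩
    have h3 := padicValRat_prod_zpow q.1 univ ρ n (fun a _ => (hρ a).ne')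
    rw [h2, padicValRat.one] at h3
    have h4 : ∑ a : I, (n a : ℚ) * (padicValRat q.1 (ρ a) : ℚ) = 0 := by exact_mod_cast h3.symm
    have h5 : ∑ a : I, (n a : ℚ) * (padicValRat q.1 (ρ a) : ℚ) =
        N * ∑ a : I, c a * (padicValRat q.1 (ρ a) : ℚ) := by
      rw [mul_sum]
      refine sum_congr rfl fun a _ => ?_
      rw [← hn a]
      ring
    rw [h5] at h4
    have h6 := (mul_eq_zero.1 h4).resolve_left hN'
    simp only [Finset.sum_apply, Pi.smul_apply, smul_eq_mul, Pi.zero_apply, hx]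
    exact h6
  have hrank : finrank ℚ (Submodule.span ℚ (Set.range x)) ≤ r := by
    refine (finrank_span_le_of_rel x _ hrel).trans ?_
    refine (Submodule.finrank_le _).trans ?_
    rw [finrank_fin_fun]
  have hfd : FiniteDimensional ℚ (Submodule.span ℚ (Set.range x)) :=
    FiniteDimensional.span_of_finite ℚ (Set.finite_range x)
  have : Nonempty Nat.Primes := ⟨⟨2, Nat.prime_two⟩⟩
  obtain ⟨Q, hQ⟩ := exists_coords r (Submodule.span ℚ (Set.range x)) hrank
  set f : I → ℚˣ := fun i => Units.mk0 (ρ i) (hρ i).ne' with hf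
  have key : ∀ μ ∈ Subgroup.closure (Set.range f), 0 < ((μ : ℚˣ) : ℚ) ∧
      (fun q : Nat.Primes => (padicValRat q.1 ((μ : ℚˣ) : ℚ) : ℚ)) ∈
        Submodule.span ℚ (Set.range x) := by
    intro μ hμ
    induction hμ using Subgroup.closure_induction with
    | mem y hy =>
      obtain ⟨i, rfl⟩ := hy
      exact ⟨hρ i, Submodule.subset_span ⟨i, rfl⟩⟩
    | one =>
      refine ⟨by simp, ?_⟩
      have h0 : (fun q : Nat.Primes => (padicValRat q.1 (((1 : ℚˣ) : ℚˣ) : ℚ) : ℚ)) = 0 := by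
        funext q
        simp
      rw [h0]
      exact Submodule.zero_mem _
    | mul y z _ _ hy hz =>
      obtain ⟨hy1, hy2⟩ := hy
      obtain ⟨hz1, hz2⟩ := hz
      refine ⟨by simpa using mul_pos hy1 hz1, ?_⟩
      have h0 : (fun q : Nat.Primes => (padicValRat q.1 (((y * z : ℚˣ) : ℚˣ) : ℚ) : ℚ)) =
          (fun q : Nat.Primes => (padicValRat q.1 ((y : ℚˣ) : ℚ) : ℚ)) +
          (fun q : Nat.Primes => (padicValRat q.1 ((z : ℚˣ) : ℚ) : ℚ)) := by
        funext q
        have : Fact q.1.Prime := ⟨q.2⟩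
        simp only [Units.val_mul, Pi.add_apply]
        rw [padicValRat.mul hy1.ne' hz1.ne']
        push_cast
        rfl
      rw [h0]
      exact Submodule.add_mem _ hy2 hz2
    | inv y _ hy =>
      obtain ⟨hy1, hy2⟩ := hy
      refine ⟨by rw [Units.val_inv_eq_inv_val]; exact inv_pos.2 hy1, ?_⟩
      have h0 : (fun q : Nat.Primes => (padicValRat q.1 (((y⁻¹ : ℚˣ) : ℚˣ) : ℚ) : ℚ)) =
          -(fun q : Nat.Primes => (padicValRat q.1 ((y : ℚˣ) : ℚ) : ℚ)) := by
        funext q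
        have : Fact q.1.Prime := ⟨q.2⟩
        simp only [Units.val_inv_eq_inv_val, Pi.neg_apply]
        rw [padicValRat.inv]
        push_cast
        rfl
      rw [h0]
      exact Submodule.neg_mem _ hy2
  refine ⟨fun k => (Q k).1, Subgroup.closure (Set.range f), fun k => (Q k).2, ?_, ?_⟩
  · intro μ hμ hv
    have h0 := hQ _ (key μ hμ).2 fun j => by
      have h1 := congrFun hv j
      simp only [vv, Pi.zero_apply] at h1
      simp only [h1]
      norm_num
    have h1 : ((μ : ℚˣ) : ℚ) = 1 := by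
      refine eq_one_of_val (key μ hμ).1 fun p hp => ?_
      have h2 : ((padicValRat p ((μ : ℚˣ) : ℚ) : ℤ) : ℚ) = 0 := congrFun h0 ⟨p, hp⟩
      exact_mod_cast h2
    exact Units.ext h1
  · intro i
    exact ⟨f i, Subgroup.subset_closure ⟨i, rfl⟩, rfl⟩

end PrimAux

theorem exists_group {r : ℕ} (g : Fin r → ℝ) (hg : ∀ i, g i ≠ 0) (A : Finset ℤ)
    (hpos : ∀ a ∈ A, 0 < a) (x : ℤ → ℝ) (E : ℤ → Fin r → ℤ)
    (hA : ∀ a ∈ A, (a : ℝ) = x a * ∏ i, g i ^ E a i) :
    ∃ (p : Fin r → ℕ) (M : Subgroup ℚˣ), (∀ k, (p k).Prime) ∧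
      (∀ μ ∈ M, vv p ((μ : ℚˣ) : ℚ) = 0 → μ = 1) ∧
      ∀ a ∈ A, ∀ b ∈ A, x a = x b → ∃ μ ∈ M, (a : ℚ) = b * ((μ : ℚˣ) : ℚ) := by
  classical
  have hR : ∀ i : {ab : A × A // x ab.1.1 = x ab.2.1},
      Real.log ((((i.1.1.1 : ℤ) : ℚ) / ((i.1.2.1 : ℤ) : ℚ) : ℚ) : ℝ) =
        ∑ k, ((E i.1.1.1 k - E i.1.2.1 k : ℤ) : ℝ) * Real.log |g k| := by
    rintro ⟨⟨⟨a, ha⟩, ⟨b, hb⟩⟩, hab⟩
    simp only at hab ⊢
    have ha0 : (0 : ℝ) < a := by exact_mod_cast hpos a ha
    have hb0 : (0 : ℝ) < b := by exact_mod_cast hpos b hb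
    have hx0 : |x b| ≠ 0 := by
      intro h0
      have h1 := hA b hb
      rw [abs_eq_zero.1 h0, zero_mul] at h1
      exact hb0.ne' h1
    have h1 : ∀ c ∈ A, (0 : ℝ) < c → (c : ℝ) = |x c| * ∏ k, |g k| ^ E c k := by
      intro c hc hc0
      have h2 := congrArg abs (hA c hc)
      rw [abs_of_pos hc0, abs_mul, abs_prod] at h2
      simpa only [abs_zpow] using h2
    have h2 : (((a : ℚ) / (b : ℚ) : ℚ) : ℝ) = ∏ k, |g k| ^ (E a k - E b k) := by
      have h3 : ∏ k, |g k| ^ (E a k - E b k) =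
          (∏ k, |g k| ^ E a k) / ∏ k, |g k| ^ E b k := by
        rw [← prod_div_distrib]
        exact prod_congr rfl fun k _ => zpow_sub₀ (abs_ne_zero.2 (hg k)) _ _
      rw [h3]
      push_cast
      rw [h1 a ha ha0, h1 b hb hb0, hab, mul_div_mul_left _ _ hx0]
    rw [h2, Real.log_prod (fun k _ => zpow_ne_zero _ (abs_ne_zero.2 (hg k)))]
    exact sum_congr rfl fun k _ => Real.log_zpow _ _
  obtain ⟨p, M, h1, h2, h3⟩ := PrimAux.core
    (fun i : {ab : A × A // x ab.1.1 = x ab.2.1} => ((i.1.1.1 : ℤ) : ℚ) / ((i.1.2.1 : ℤ) : ℚ))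
    (fun i => div_pos (by exact_mod_cast hpos _ i.1.1.2) (by exact_mod_cast hpos _ i.1.2.2))
    (fun k => Real.log |g k|) (fun i k => E i.1.1.1 k - E i.1.2.1 k) hR
  refine ⟨p, M, h1, h2, fun a ha b hb hab => ?_⟩
  obtain ⟨μ, hμ, h4⟩ := h3 ⟨(⟨a, ha⟩, ⟨b, hb⟩), hab⟩
  refine ⟨μ, hμ, ?_⟩
  simp only at h4
  have hb0 : ((b : ℤ) : ℚ) ≠ 0 := by exact_mod_cast (hpos b hb).ne'
  rw [← h4, mul_div_cancel₀ _ hb0]

end Pool.Agent.Lib.SGP
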