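import Pool.Agent.Lib.SGP.Sq
import Pool.Agent.Lib.SGP.Norm
import Pool.Agent.Lib.SGP.Prim

/-!
# The additive energy of a set covered by few cosets of a multiplicative group of rank `r`
-/

set_option autoImplicit false

namespace Pool.Agent.Lib.SGP

open Finset Pool.Agent.Lib.CSid

/-- the valuations as a sequence -/
noncomputable def vn {r : ℕ} (p : Fin r → ℕ) (k : ℕ) (a : ℤ) : ℕ :=
  if h : k < r then padicValInt (p ⟨k, h⟩) a else 0

lemma vn_eq {r : ℕ} (p : Fin r → ℕ) (k : Fin r) (a : ℤ) :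
    ((vn p k a : ℕ) : ℤ) = vv p (a : ℚ) k := by
  unfold vn vv
  rw [dif_pos k.2, padicValRat.of_int]

lemma vn_all {r : ℕ} (p : Fin r → ℕ) (a b : ℤ) :
    (∀ i < r, vn p i a = vn p i b) ↔ vv p (a : ℚ) = vv p (b : ℚ) := by
  constructor
  · intro h
    funext k
    rw [← vn_eq, ← vn_eq, h k k.2]
  · intro h i hi
    have h1 := congrFun h ⟨i, hi⟩
    rw [← vn_eq, ← vn_eq] at h1
    exact_mod_cast h1

lemma vn_ult {r : ℕ} (p : Fin r → ℕ) (hp : ∀ k, (p k).Prime) (A : Finset ℤ)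
    (hpos : ∀ a ∈ A, 0 < a) : ∀ k < r, ∀ a ∈ A, ∀ b ∈ A, ∀ c ∈ A, ∀ d ∈ A,
      vn p k a < vn p k b → vn p k c < vn p k d → a - b = c - d → vn p k a = vn p k c := by
  have key : ∀ (k : ℕ) (hk : k < r), ∀ a ∈ A, ∀ b ∈ A, vn p k a < vn p k b →
      ((vn p k a : ℕ) : ℤ) = padicValRat (p ⟨k, hk⟩) ((a - b : ℤ) : ℚ) := by
    intro k hk a ha b hb hlt
    have : Fact (p ⟨k, hk⟩).Prime := ⟨hp _⟩
    have ha0 : (a : ℚ) ≠ 0 := by exact_mod_cast (hpos a ha).ne'
    have hb0 : -(b : ℚ) ≠ 0 := neg_ne_zero.2 (by exact_mod_cast (hpos b hb).ne')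
    have e1 : ((vn p k a : ℕ) : ℤ) = padicValRat (p ⟨k, hk⟩) (a : ℚ) := vn_eq p ⟨k, hk⟩ a
    have e2 : ((vn p k b : ℕ) : ℤ) = padicValRat (p ⟨k, hk⟩) (-(b : ℚ)) := by
      rw [padicValRat.neg]
      exact vn_eq p ⟨k, hk⟩ b
    have hlt' : padicValRat (p ⟨k, hk⟩) (a : ℚ) < padicValRat (p ⟨k, hk⟩) (-(b : ℚ)) := by
      rw [← e1, ← e2]
      exact_mod_cast hlt
    have hne : (a : ℚ) + -(b : ℚ) ≠ 0 := by
      intro h0
      have : (a : ℚ) = b := by linarith
      have hab : a = b := by exact_mod_cast this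
      rw [hab] at hlt
      exact lt_irrefl _ hlt
    have h1 := padicValRat.add_eq_of_lt hne ha0 hb0 hlt'
    rw [e1, ← h1]
    congr 1
    push_cast
    ring
  intro k hk a ha b hb c hc d hd h1 h2 h3
  have e1 := key k hk a ha b hb h1
  have e2 := key k hk c hc d hd h2
  rw [h3] at e1
  have : ((vn p k a : ℕ) : ℤ) = ((vn p k c : ℕ) : ℤ) := e1.trans e2.symm
  exact_mod_cast this

theorem en_group (r : ℕ) : ∃ C : ℝ, 1 ≤ C ∧ ∀ (g : Fin r → ℝ), (∀ i, g i ≠ 0) →
    ∀ A : Finset ℤ, (∀ a ∈ A, 0 < a) → ∀ (x : ℤ → ℝ) (E : ℤ → Fin r → ℤ),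
    (∀ a ∈ A, (a : ℝ) = x a * ∏ i, g i ^ E a i) → ∀ m : ℕ, (A.image x).card ≤ m →
    (en A : ℝ) ≤ C * ((A.card : ℝ) ^ 2 +
      (m : ℝ) ^ (3 - 1 / ((r : ℝ) + 1)) * A.card) := by
  classical
  obtain ⟨t, ht⟩ := card_diff_pow r
  set D : ℝ := max 1 ((t : ℝ) ^ (1 / ((r : ℝ) + 1))) with hD
  have hD1 : 1 ≤ D := le_max_left _ _
  refine ⟨68 ^ r * D, ?_, ?_⟩
  · have : (1 : ℝ) ≤ 68 ^ r := one_le_pow₀ (by norm_num)
    nlinarith
  intro g hg A hpos x E hA m hm
  obtain ⟨p, M, hp, hM, hcls⟩ := exists_group g hg A hpos x E hA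
  have hPV : ∀ s : ℤ × ℤ, s ∈ PV A (vn p) r ↔
      (s ∈ A ×ˢ A ∧ vv p (s.1 : ℚ) = vv p (s.2 : ℚ)) := by
    intro s
    rw [PV, mem_filter, vn_all]
  have h1 := en_le_PV A (vn p) r (vn_ult p hp A hpos)
  have hcard : (PV A (vn p) r).card ≤ A.card * m := by
    calc (PV A (vn p) r).card = ∑ a ∈ A, ((PV A (vn p) r).filter (fun s => s.1 = a)).card := by
          apply card_eq_sum_card_fiberwise
          intro s hs
          have := (hPV s).1 hs
          rw [mem_product] at this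
          exact this.1.1
      _ ≤ ∑ a ∈ A, m := by
          refine sum_le_sum fun a ha => ?_
          refine le_trans ?_ (card_level p hp M hM A hpos x hcls m hm (vv p (a : ℚ)))
          refine card_le_card_of_injOn (fun s => s.2) ?_ ?_
          · intro s hs
            rw [mem_coe, mem_filter, hPV, mem_product] at hs
            rw [mem_coe, mem_filter]
            refine ⟨hs.1.1.2, ?_⟩
            rw [← hs.1.2, hs.2]
          · intro s hs s' hs' hss
            rw [mem_coe, mem_filter] at hs hs'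
            exact Prod.ext (hs.2.trans hs'.2.symm) hss
      _ = A.card * m := by rw [sum_const, smul_eq_mul]
  have hm0 : (0 : ℝ) ≤ m := by positivity
  have hr0 : (0 : ℝ) < (r : ℝ) + 1 := by positivity
  set b : ℝ := D * (m : ℝ) ^ (2 - 1 / ((r : ℝ) + 1)) with hb
  have hb0 : 0 ≤ b := by positivity
  have hrp : ∀ z : ℤ, z ≠ 0 → (rp (PV A (vn p) r) z : ℝ) ≤ b := by
    intro z hz
    have h2 := ht p hp M hM A hpos x hcls m hm z hz
    have h3 : rp (PV A (vn p) r) z = ((A ×ˢ A).filter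
        (fun s => vv p (s.1 : ℚ) = vv p (s.2 : ℚ) ∧ s.1 - s.2 = z)).card := by
      unfold rp
      congr 1
      ext s
      rw [mem_filter, hPV, mem_filter]
      tauto
    rw [← h3] at h2
    have h4 : ((rp (PV A (vn p) r) z : ℕ) : ℝ) ^ (r + 1) ≤ t * (m : ℝ) ^ (2 * r + 1) := by
      exact_mod_cast h2
    have h5 : ((rp (PV A (vn p) r) z : ℕ) : ℝ) =
        (((rp (PV A (vn p) r) z : ℕ) : ℝ) ^ (r + 1)) ^ (1 / ((r : ℝ) + 1)) := by
      rw [← Real.rpow_natCast, ← Real.rpow_mul (by positivity)]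
      push_cast
      rw [mul_one_div_cancel hr0.ne', Real.rpow_one]
    rw [h5]
    calc (((rp (PV A (vn p) r) z : ℕ) : ℝ) ^ (r + 1)) ^ (1 / ((r : ℝ) + 1))
        ≤ (t * (m : ℝ) ^ (2 * r + 1)) ^ (1 / ((r : ℝ) + 1)) :=
          Real.rpow_le_rpow (by positivity) h4 (by positivity)
      _ = (t : ℝ) ^ (1 / ((r : ℝ) + 1)) * (m : ℝ) ^ (2 - 1 / ((r : ℝ) + 1)) := by
          rw [Real.mul_rpow (by positivity) (by positivity), ← Real.rpow_natCast,
            ← Real.rpow_mul hm0]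
          congr 2
          push_cast
          field_simp
          ring
      _ ≤ b := by
          rw [hb]
          gcongr
          exact le_max_right _ _
  have hz0 : rp (PV A (vn p) r) 0 ≤ A.card := by
    unfold rp
    refine card_le_card_of_injOn (fun s => s.1) ?_ ?_
    · intro s hs
      rw [mem_coe, mem_filter, hPV, mem_product] at hs
      exact hs.1.1.1
    · intro s hs s' hs' hss
      rw [mem_coe, mem_filter] at hs hs'
      have e1 := hs.2
      have e2 := hs'.2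
      simp only at hss
      exact Prod.ext hss (by linarith)
  have hdiag : ((PV A (vn p) r).filter (fun s => s.1 - s.2 = 0)).card ≤ A.card := hz0
  have hip : (ip (PV A (vn p) r) (PV A (vn p) r) : ℝ) ≤ (A.card : ℝ) ^ 2 + b * (A.card * m) := by
    rw [ip_eq_sum]
    push_cast
    rw [← sum_filter_add_sum_filter_not _ (fun s : ℤ × ℤ => s.1 - s.2 = 0)]
    refine add_le_add ?_ ?_
    · calc ∑ s ∈ (PV A (vn p) r).filter (fun s => s.1 - s.2 = 0),
            (rp (PV A (vn p) r) (s.1 - s.2) : ℝ)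
          ≤ ∑ s ∈ (PV A (vn p) r).filter (fun s => s.1 - s.2 = 0), (A.card : ℝ) := by
            refine sum_le_sum fun s hs => ?_
            rw [(mem_filter.1 hs).2]
            exact_mod_cast hz0
        _ = ((PV A (vn p) r).filter (fun s => s.1 - s.2 = 0)).card * (A.card : ℝ) := by
            rw [sum_const, nsmul_eq_mul]
        _ ≤ (A.card : ℝ) * A.card := by
            have : (((PV A (vn p) r).filter (fun s => s.1 - s.2 = 0)).card : ℝ) ≤ A.card := by
              exact_mod_cast hdiag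
            gcongr
        _ = (A.card : ℝ) ^ 2 := by ring
    · calc ∑ s ∈ (PV A (vn p) r).filter (fun s => ¬ s.1 - s.2 = 0),
            (rp (PV A (vn p) r) (s.1 - s.2) : ℝ)
          ≤ ∑ s ∈ (PV A (vn p) r).filter (fun s => ¬ s.1 - s.2 = 0), b :=
            sum_le_sum fun s hs => hrp _ (mem_filter.1 hs).2
        _ = ((PV A (vn p) r).filter (fun s => ¬ s.1 - s.2 = 0)).card * b := by
            rw [sum_const, nsmul_eq_mul]
        _ ≤ (A.card * m : ℝ) * b := by
            have : (((PV A (vn p) r).filter (fun s => ¬ s.1 - s.2 = 0)).card : ℝ) ≤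
                (A.card * m : ℝ) := by
              exact_mod_cast (card_le_card (filter_subset _ _)).trans hcard
            gcongr
        _ = b * (A.card * m) := by ring
  have h6 : (en A : ℝ) ≤ 68 ^ r * ip (PV A (vn p) r) (PV A (vn p) r) := by exact_mod_cast h1
  calc (en A : ℝ) ≤ 68 ^ r * ip (PV A (vn p) r) (PV A (vn p) r) := h6
    _ ≤ 68 ^ r * ((A.card : ℝ) ^ 2 + b * (A.card * m)) := by gcongr
    _ = 68 ^ r * ((A.card : ℝ) ^ 2 + D * ((m : ℝ) ^ (3 - 1 / ((r : ℝ) + 1)) * A.card)) := by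
        rw [hb]
        congr 2
        rcases Nat.eq_zero_or_pos m with h0 | h0
        · subst h0
          have : (3 : ℝ) - 1 / ((r : ℝ) + 1) ≠ 0 := by
            have : 1 / ((r : ℝ) + 1) ≤ 1 := by
              rw [div_le_one hr0]
              linarith [(Nat.cast_nonneg r : (0 : ℝ) ≤ r)]
            linarith
          rw [Nat.cast_zero, Real.zero_rpow this]
          ring
        · have hmp : (0 : ℝ) < m := by exact_mod_cast h0
          rw [show (3 : ℝ) - 1 / ((r : ℝ) + 1) = (2 - 1 / ((r : ℝ) + 1)) + 1 by ring,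
            Real.rpow_add hmp, Real.rpow_one]
          ring
    _ ≤ 68 ^ r * (D * (A.card : ℝ) ^ 2 + D * ((m : ℝ) ^ (3 - 1 / ((r : ℝ) + 1)) * A.card)) := by
        have : (A.card : ℝ) ^ 2 ≤ D * (A.card : ℝ) ^ 2 :=
          le_mul_of_one_le_left (by positivity) hD1
        gcongr
    _ = 68 ^ r * D * ((A.card : ℝ) ^ 2 + (m : ℝ) ^ (3 - 1 / ((r : ℝ) + 1)) * A.card) := by ring

end Pool.Agent.Lib.SGP
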