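import Mathlib

/-!
# Solutions of a multiplicative relation between translates

Proof. `U ∈ S` is a root of `P = ∏_{n l > 0} (X + c l) ^ (n l).toNat - κ ∏_{n l < 0} (X + c l) ^ (- n l).toNat` (multiply
the relation by the product of the `(U + c l) ^ (- n l)` over `n l < 0`), whose degree is at most `∑ |n l|`. `P ≠ 0`: if
some `n l > 0`, then at `- c l` the first product vanishes and the second does not (`c l' ≠ c l`, `κ ≠ 0`); if all
`n l ≤ 0`, take `l` with `n l < 0`: at `- c l` the second vanishes and the first, the empty product, is 1.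
`Polynomial.card_roots'`.
-/

set_option autoImplicit false

namespace Pool.Agent.Lib.SGP

open Finset

namespace KlemBAux

open Polynomial

variable {ι : Type*} [Fintype ι]

/-- The product of the powers of the translates. -/
noncomputable def pr (c : ι → ℚ) (e : ι → ℕ) : ℚ[X] := ∏ l, (X + C (c l)) ^ e l

theorem eval_pr (c : ι → ℚ) (e : ι → ℕ) (U : ℚ) : (pr c e).eval U = ∏ l, (U + c l) ^ e l := by
  simp [pr, eval_prod]

theorem natDegree_pr (c : ι → ℚ) (e : ι → ℕ) : (pr c e).natDegree ≤ ∑ l, e l := by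
  refine (natDegree_prod_le _ _).trans (Finset.sum_le_sum (fun l _ => ?_))
  refine natDegree_pow_le.trans ?_
  rw [natDegree_X_add_C, mul_one]

theorem eval_pr_eq_zero (c : ι → ℚ) (e : ι → ℕ) (l : ι) (h : 0 < e l) :
    (pr c e).eval (- c l) = 0 := by
  rw [eval_pr]
  refine Finset.prod_eq_zero (Finset.mem_univ l) ?_
  rw [neg_add_cancel]
  exact zero_pow h.ne'

theorem eval_pr_ne_zero (c : ι → ℚ) (hc : Function.Injective c) (e : ι → ℕ) (l : ι)
    (h : e l = 0) : (pr c e).eval (- c l) ≠ 0 := by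
  rw [eval_pr]
  refine Finset.prod_ne_zero_iff.2 (fun j _ => ?_)
  by_cases hj : j = l
  · rw [hj, h, pow_zero]
    exact one_ne_zero
  · refine pow_ne_zero _ (fun h0 => hj (hc ?_))
    linarith

end KlemBAux

open KlemBAux Polynomial in
theorem card_sol_rel {ι : Type*} [Fintype ι] (n : ι → ℤ) (hn : n ≠ 0) (c : ι → ℚ)
    (hc : Function.Injective c) (κ : ℚ) (hκ : κ ≠ 0) (S : Finset ℚ)
    (hS : ∀ U ∈ S, (∀ l, U + c l ≠ 0) ∧ ∏ l, (U + c l) ^ n l = κ) :
    S.card ≤ ∑ l, (n l).natAbs := by
  obtain ⟨l, hl⟩ := Function.ne_iff.1 hn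
  have hl' : n l ≠ 0 := hl
  set A : ℚ[X] := pr c (fun l => (n l).toNat) with hA
  set B : ℚ[X] := C κ * pr c (fun l => (- n l).toNat) with hB
  have hdeg : (A - B).natDegree ≤ ∑ l, (n l).natAbs := by
    refine (natDegree_sub_le A B).trans (max_le ?_ ?_)
    · exact (natDegree_pr c _).trans (Finset.sum_le_sum (fun j _ => by omega))
    · refine (natDegree_C_mul_le κ _).trans ((natDegree_pr c _).trans
        (Finset.sum_le_sum (fun j _ => by omega)))
  have hne : A - B ≠ 0 := by
    intro h0
    have h1 : (A - B).eval (- c l) = 0 := by rw [h0, eval_zero]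
    rw [eval_sub, hA, hB, eval_mul, eval_C] at h1
    rcases lt_or_gt_of_ne hl' with h2 | h2
    · rw [eval_pr_eq_zero c (fun l => (- n l).toNat) l (by omega), mul_zero,
        sub_zero] at h1
      exact eval_pr_ne_zero c hc (fun l => (n l).toNat) l (by omega) h1
    · rw [eval_pr_eq_zero c (fun l => (n l).toNat) l (by omega), zero_sub,
        neg_eq_zero] at h1
      exact mul_ne_zero hκ
        (eval_pr_ne_zero c hc (fun l => (- n l).toNat) l (by omega)) h1
  have hroot : ∀ U ∈ S, (A - B).eval U = 0 := by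
    intro U hU
    obtain ⟨h1, h2⟩ := hS U hU
    rw [eval_sub, hA, hB, eval_mul, eval_C, eval_pr, eval_pr, ← h2, ← Finset.prod_mul_distrib,
      sub_eq_zero]
    refine Finset.prod_congr rfl (fun j _ => ?_)
    have e1 : n j = ((n j).toNat : ℤ) - ((- n j).toNat : ℤ) := by omega
    have e2 : (U + c j) ^ n j = (U + c j) ^ (n j).toNat / (U + c j) ^ (- n j).toNat := by
      rw [← zpow_natCast, ← zpow_natCast, ← zpow_sub₀ (h1 j), ← e1]
    rw [e2, div_mul_cancel₀ _ (pow_ne_zero _ (h1 j))]
  have hsub : S ⊆ (A - B).roots.toFinset := fun U hU =>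
    Multiset.mem_toFinset.2 ((mem_roots hne).2 (hroot U hU))
  calc S.card ≤ (A - B).roots.toFinset.card := Finset.card_le_card hsub
    _ ≤ Multiset.card (A - B).roots := Multiset.toFinset_card_le _
    _ ≤ (A - B).natDegree := card_roots' _
    _ ≤ ∑ l, (n l).natAbs := hdeg

end Pool.Agent.Lib.SGP
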