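import Pool.Agent.Lib.SGP.KlemA
import Pool.Agent.Lib.SGP.KlemB

/-!
# Few common neighbours

Let `M` be a subgroup of `ℚˣ` on which the valuations at `r` primes are injective. For `r + 1` distinct rationals
`y l` and `x ≠ 0` the number of `z` with `y l - z ∈ x M` for all `l` is at most `t`, where `t` depends on `r` only.

Proof. (1) For every `C : Fin r → Finset (Fin (r + 1))` choose `n = n_C` by `exists_rel`, let `D C = ∑ l, |n l|` (natural number) and `t = ∑ C, D C`.
(2) For `z ∈ S` choose `μ l ∈ M` with `y l - z = x * μ l`. Let `τ k = max over l of v_k (μ l)`,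
`C k = {l : v_k (μ l) = τ k}` (nonempty), `v_k = padicValRat (p k)`. For `l ∉ C k` and the least element `l'` of `C k`:
`v_k (μ l) < v_k (μ l')`, so `v_k (μ l - μ l') = v_k (μ l)`; since `y l - y l' = x * (μ l - μ l')`:
`v_k (μ l) = v_k (y l - y l') - v_k x`, a number which depends only on `C` (and the given data), not on `z`.
(3) Let `z, z' ∈ S` have the same `C`, `n = n_C`. Then `∏ l, μ l ^ n l = ∏ l, μ' l ^ n l`: both are in `M` and
`v_k` of the product is `∑ l, n l * v_k (μ l) = τ k * ∑ l ∈ C k, n l + ∑ l ∉ C k, n l * v_k (μ l)`, where the first term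
vanishes and the second is the same for `z'`. So the quotient is 1 by `hM`. Call the common value `κ ≠ 0`.
(4) Put `c l = (y l - y 0) / x` (distinct numbers) and `U = μ 0`, so `μ l = U + c l`. So `U`
satisfies the hypotheses of `card_sol_rel`: at most `D C` values. And `z = y 0 - x U` is determined by `U`. So at most `D C` elements of `S` have the data `C`, and `S.card ≤ ∑ C, D C = t`.
-/

set_option autoImplicit false

namespace Pool.Agent.Lib.SGP

open Finset

/-- valuations at the primes `p k` -/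
def vv {r : ℕ} (p : Fin r → ℕ) (q : ℚ) : Fin r → ℤ := fun k => padicValRat (p k) q

namespace KlemAux

lemma val_prod {ι : Type*} (p : ℕ) [Fact p.Prime] (s : Finset ι) (m : ι → ℚˣ) (n : ι → ℤ) :
    padicValRat p (((∏ l ∈ s, m l ^ n l : ℚˣ)) : ℚ) = ∑ l ∈ s, n l * padicValRat p ((m l : ℚˣ) : ℚ) := by
  classical
  induction s using Finset.induction_on with
  | empty => simp
  | insert a s ha ih =>
    rw [prod_insert ha, sum_insert ha, Units.val_mul, padicValRat.mul (Units.ne_zero _) (Units.ne_zero _),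
      ih, Units.val_zpow_eq_zpow_val, padicValRat.zpow]

lemma val_sub_lt (p : ℕ) [Fact p.Prime] {a b : ℚ} (ha : a ≠ 0) (hb : b ≠ 0)
    (h : padicValRat p a < padicValRat p b) : padicValRat p a = padicValRat p (a - b) := by
  have hne : a ≠ b := by rintro rfl; exact lt_irrefl _ h
  rw [sub_eq_add_neg]
  refine (padicValRat.add_eq_of_lt ?_ ha (neg_ne_zero.2 hb) ?_).symm
  · rw [← sub_eq_add_neg]; exact sub_ne_zero.2 hne
  · rwa [padicValRat.neg]

end KlemAux

open KlemAux in
theorem klem (r : ℕ) : ∃ t : ℕ, ∀ (p : Fin r → ℕ), (∀ k, (p k).Prime) → ∀ M : Subgroup ℚˣ,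
    (∀ μ ∈ M, vv p ((μ : ℚˣ) : ℚ) = 0 → μ = 1) → ∀ x : ℚ, x ≠ 0 → ∀ y : Fin (r + 1) → ℚ,
    Function.Injective y → ∀ S : Finset ℚ,
    (∀ z ∈ S, ∀ l, ∃ μ ∈ M, y l - z = x * ((μ : ℚˣ) : ℚ)) → S.card ≤ t := by
  classical
  choose nC hn0 hnsum using exists_rel r
  refine ⟨∑ C, ∑ l, (nC C l).natAbs, ?_⟩
  intro p hp M hM x hx y hy S hS
  have : ∀ k, Fact (p k).Prime := fun k => ⟨hp k⟩
  -- the quotients
  let μ : ℚ → Fin (r + 1) → ℚ := fun z l => (y l - z) / x
  let τ : ℚ → Fin r → ℤ := fun z k => univ.sup' ⟨0, mem_univ _⟩ (fun l => padicValRat (p k) (μ z l))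
  let Cz : ℚ → Fin r → Finset (Fin (r + 1)) := fun z k => univ.filter fun l =>
    padicValRat (p k) (μ z l) = τ z k
  have hC0 : ∀ z k, (Cz z k).Nonempty := by
    intro z k
    obtain ⟨l, _, hl⟩ := exists_mem_eq_sup' (s := (univ : Finset (Fin (r + 1)))) ⟨0, mem_univ _⟩
      (fun l => padicValRat (p k) (μ z l))
    exact ⟨l, mem_filter.2 ⟨mem_univ _, hl.symm⟩⟩
  have hμM : ∀ z ∈ S, ∃ m : Fin (r + 1) → ℚˣ, ∀ l, m l ∈ M ∧ ((m l : ℚˣ) : ℚ) = μ z l := by
    intro z hz
    choose m hm using hS z hz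
    refine ⟨m, fun l => ⟨(hm l).1, ?_⟩⟩
    show _ = (y l - z) / x
    rw [(hm l).2, mul_div_cancel_left₀ _ hx]
  have hμ0 : ∀ z ∈ S, ∀ l, μ z l ≠ 0 := by
    intro z hz l
    obtain ⟨m, hm⟩ := hμM z hz
    rw [← (hm l).2]
    exact Units.ne_zero _
  have hlow : ∀ z ∈ S, ∀ k, ∀ l ∉ Cz z k, ∀ l' ∈ Cz z k,
      padicValRat (p k) (μ z l) = padicValRat (p k) ((y l - y l') / x) := by
    intro z hz k l hl l' hl'
    have h1 : padicValRat (p k) (μ z l) ≤ τ z k :=
      le_sup' (fun l => padicValRat (p k) (μ z l)) (mem_univ l)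
    have h2 : padicValRat (p k) (μ z l') = τ z k := (mem_filter.1 hl').2
    have h3 : padicValRat (p k) (μ z l) ≠ τ z k := fun h => hl (mem_filter.2 ⟨mem_univ _, h⟩)
    have h4 : padicValRat (p k) (μ z l) < padicValRat (p k) (μ z l') := by
      rw [h2]; exact lt_of_le_of_ne h1 h3
    rw [val_sub_lt (p k) (hμ0 z hz l) (hμ0 z hz l') h4]
    congr 1
    show (y l - z) / x - (y l' - z) / x = _
    ring
  have hkey : ∀ z ∈ S, ∀ z' ∈ S, Cz z = Cz z' →
      ∏ l, μ z l ^ nC (Cz z) l = ∏ l, μ z' l ^ nC (Cz z) l := by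
    intro z hz z' hz' hCC
    obtain ⟨m, hm⟩ := hμM z hz
    obtain ⟨m', hm'⟩ := hμM z' hz'
    have hval : ∀ w ∈ S, ∀ mm : Fin (r + 1) → ℚˣ, (∀ l, mm l ∈ M ∧ ((mm l : ℚˣ) : ℚ) = μ w l) →
        Cz w = Cz z → ∀ k, ∑ l, nC (Cz z) l * padicValRat (p k) ((mm l : ℚˣ) : ℚ) =
          ∑ l ∈ univ.filter (fun l => l ∉ Cz z k), nC (Cz z) l *
            padicValRat (p k) ((y l - y (hC0 z k).choose) / x) := by
      intro w hw mm hmm hwz k
      rw [← sum_filter_add_sum_filter_not univ (fun l => l ∈ Cz z k)]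
      have h1 : ∑ l ∈ univ.filter (fun l => l ∈ Cz z k),
          nC (Cz z) l * padicValRat (p k) ((mm l : ℚˣ) : ℚ) = 0 := by
        have h2 : ∀ l ∈ univ.filter (fun l => l ∈ Cz z k),
            nC (Cz z) l * padicValRat (p k) ((mm l : ℚˣ) : ℚ) = nC (Cz z) l * τ w k := by
          intro l hl
          rw [(hmm l).2]
          have h3 : l ∈ Cz w k := by rw [hwz]; exact (mem_filter.1 hl).2
          rw [(mem_filter.1 h3).2]
        rw [sum_congr rfl h2, ← sum_mul]
        have h4 : univ.filter (fun l => l ∈ Cz z k) = Cz z k := by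
          ext l; simp
        rw [h4, hnsum, zero_mul]
      rw [h1, zero_add]
      refine sum_congr rfl fun l hl => ?_
      rw [(hmm l).2]
      have h5 : l ∉ Cz w k := by rw [hwz]; exact (mem_filter.1 hl).2
      have h6 : (hC0 z k).choose ∈ Cz w k := by rw [hwz]; exact (hC0 z k).choose_spec
      rw [hlow w hw k l h5 _ h6]
    have hP : (∏ l, m l ^ nC (Cz z) l) * (∏ l, m' l ^ nC (Cz z) l)⁻¹ = 1 := by
      refine hM _ (M.mul_mem (M.prod_mem fun l _ => M.zpow_mem (hm l).1 _)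
        (M.inv_mem (M.prod_mem fun l _ => M.zpow_mem (hm' l).1 _))) ?_
      funext k
      show padicValRat (p k) _ = 0
      rw [Units.val_mul, padicValRat.mul (Units.ne_zero _) (Units.ne_zero _), Units.val_inv_eq_inv_val,
        padicValRat.inv, val_prod, val_prod, hval z hz m hm rfl k, hval z' hz' m' hm' hCC.symm k]
      ring
    have hQ : (∏ l, m l ^ nC (Cz z) l) = ∏ l, m' l ^ nC (Cz z) l := mul_inv_eq_one.1 hP
    have hR := congrArg (fun u : ℚˣ => (u : ℚ)) hQ
    simp only [Units.coe_prod, Units.val_zpow_eq_zpow_val] at hR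
    calc ∏ l, μ z l ^ nC (Cz z) l = ∏ l, ((m l : ℚˣ) : ℚ) ^ nC (Cz z) l :=
          prod_congr rfl fun l _ => by rw [(hm l).2]
      _ = ∏ l, ((m' l : ℚˣ) : ℚ) ^ nC (Cz z) l := hR
      _ = _ := prod_congr rfl fun l _ => by rw [(hm' l).2]
  rw [card_eq_sum_card_fiberwise (f := Cz) (t := univ) (fun z _ => mem_univ _)]
  refine sum_le_sum fun C _ => ?_
  rcases (S.filter fun z => Cz z = C).eq_empty_or_nonempty with h0 | ⟨z0, hz0⟩
  · rw [h0]; simp
  obtain ⟨hz0S, hz0C⟩ := mem_filter.1 hz0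
  have hinj : Function.Injective (fun z : ℚ => (y 0 - z) / x) := by
    intro a b hab
    have := (div_left_inj' hx).1 hab
    linarith
  rw [← card_image_of_injective (S.filter fun z => Cz z = C) hinj]
  refine card_sol_rel (nC C) (hn0 C) (fun l => (y l - y 0) / x) ?_
    (∏ l, μ z0 l ^ nC C l) ?_ _ ?_
  · intro a b hab
    have := (div_left_inj' hx).1 hab
    exact hy (by linarith)
  · exact prod_ne_zero_iff.2 fun l _ => zpow_ne_zero _ (hμ0 z0 hz0S l)
  · intro U hU
    obtain ⟨z, hz, rfl⟩ := mem_image.1 hU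
    obtain ⟨hzS, hzC⟩ := mem_filter.1 hz
    have he : ∀ l, (y 0 - z) / x + (y l - y 0) / x = μ z l := by
      intro l
      show _ = (y l - z) / x
      ring
    refine ⟨fun l => ?_, ?_⟩
    · show (y 0 - z) / x + (y l - y 0) / x ≠ 0
      rw [he]; exact hμ0 z hzS l
    · have := hkey z hzS z0 hz0S (hzC.trans hz0C.symm)
      rw [hzC] at this
      rw [← this]
      exact prod_congr rfl fun l _ => by rw [he]

end Pool.Agent.Lib.SGP
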