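import Mathlib

/-!
# An integer relation

Proof. The square matrix of size `r + 1` whose first `r` rows are the indicator functions of the sets
`C k` and whose last row is zero has determinant zero, so there is a nonzero integer vector in its
kernel.
-/

set_option autoImplicit false

namespace Pool.Agent.Lib.SGP

open Finset

theorem exists_rel (r : ℕ) (C : Fin r → Finset (Fin (r + 1))) :
    ∃ n : Fin (r + 1) → ℤ, n ≠ 0 ∧ ∀ k, ∑ l ∈ C k, n l = 0 := by
  classical
  let M : Matrix (Fin (r + 1)) (Fin (r + 1)) ℤ := Matrix.of fun i l =>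
    Fin.lastCases (motive := fun _ => ℤ) 0 (fun k => if l ∈ C k then 1 else 0) i
  have hM : M.det = 0 := by
    refine Matrix.det_eq_zero_of_row_eq_zero (Fin.last r) fun l => ?_
    simp [M]
  obtain ⟨v, hv, hv0⟩ := Matrix.exists_mulVec_eq_zero_iff.2 hM
  refine ⟨v, hv, fun k => ?_⟩
  have h := congrFun hv0 k.castSucc
  simp only [Matrix.mulVec, dotProduct, M, Matrix.of_apply, Fin.lastCases_castSucc,
    Pi.zero_apply, ite_mul, one_mul, zero_mul] at h
  rw [← h, Finset.sum_ite_mem, Finset.univ_inter]

end Pool.Agent.Lib.SGP
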