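import Pool.Agent.Lib.SGP.Norm
import Pool.Agent.Lib.SGP.Edge1
import Pool.Agent.Lib.SGP.Egr

/-!
# Rank one: the energy of a set covered by few dilates of a geometric progression
-/

set_option autoImplicit false

namespace Pool.Agent.Lib.SGP

open Finset Pool.Agent.Lib.CSid

theorem exists_norm {r : ℕ} (p : Fin r → ℕ) (hp : ∀ k, (p k).Prime) (M : Subgroup ℚˣ)
    (hM : ∀ μ ∈ M, vv p ((μ : ℚˣ) : ℚ) = 0 → μ = 1) (A : Finset ℤ) (hpos : ∀ a ∈ A, 0 < a)
    {ι : Type} [DecidableEq ι] (cls : ℤ → ι)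
    (hcls : ∀ a ∈ A, ∀ b ∈ A, cls a = cls b → ∃ μ ∈ M, (a : ℚ) = b * ((μ : ℚˣ) : ℚ))
    (m : ℕ) (hm : (A.image cls).card ≤ m) : ∃ Y : Finset ℚ, Y.card ≤ m ∧ ∀ x : ℤ, x ≠ 0 →
    ((A ×ˢ A).filter (fun s => vv p (s.1 : ℚ) = vv p (s.2 : ℚ) ∧ s.1 - s.2 = x)).card
      ≤ (edges M (x : ℚ) Y).card := by
  classical
  let E : Setoid (Fin r → ℤ) :=
    { r := fun w w' => ∃ μ ∈ M, vv p ((μ : ℚˣ) : ℚ) = w - w'
      iseqv :=
        { refl := fun w => ⟨1, M.one_mem, by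
            rw [sub_self]
            funext k
            show padicValRat (p k) ((1 : ℚˣ) : ℚ) = 0
            rw [Units.val_one, padicValRat.one]⟩
          symm := fun {w w'} ⟨μ, hμ, h⟩ => ⟨μ⁻¹, M.inv_mem hμ, by
            rw [NormAux.vv_unit_inv p hp, h, neg_sub]⟩
          trans := fun {w w' w''} ⟨μ, hμ, h⟩ ⟨ν, hν, h'⟩ => ⟨μ * ν, M.mul_mem hμ hν, by
            rw [NormAux.vv_unit_mul p hp, h, h', sub_add_sub_cancel]⟩ } }
  let ω : (Fin r → ℤ) → (Fin r → ℤ) := fun w => (Quotient.mk E w).out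
  have hω : ∀ w, ∃ μ ∈ M, vv p ((μ : ℚˣ) : ℚ) = w - ω w := by
    intro w
    exact E.symm (Quotient.mk_out (s := E) w)
  have hωeq : ∀ w w' : Fin r → ℤ, (∃ μ ∈ M, vv p ((μ : ℚˣ) : ℚ) = w - w') → ω w = ω w' := by
    intro w w' h
    have h1 : Quotient.mk E w = Quotient.mk E w' := Quotient.sound (s := E) h
    show (Quotient.mk E w).out = (Quotient.mk E w').out
    rw [h1]
  choose f hfM hf using hω
  let y : ℤ → ℚ := fun a => (a : ℚ) * (((f (vv p (a : ℚ)))⁻¹ : ℚˣ) : ℚ)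
  have hy : ∀ a : ℤ, (a : ℚ) = y a * ((f (vv p (a : ℚ)) : ℚˣ) : ℚ) := by
    intro a
    show (a : ℚ) = (a : ℚ) * (((f (vv p (a : ℚ)))⁻¹ : ℚˣ) : ℚ) * ((f (vv p (a : ℚ)) : ℚˣ) : ℚ)
    rw [mul_assoc, ← Units.val_mul, inv_mul_cancel, Units.val_one, mul_one]
  have hF1 : ∀ a ∈ A, ∀ b ∈ A, cls a = cls b → y a = y b := by
    intro a ha b hb hab
    obtain ⟨μ, hμ, h1⟩ := hcls a ha b hb hab
    have hb0 : (b : ℚ) ≠ 0 := by
      have := hpos b hb
      exact_mod_cast this.ne'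
    have h2 : vv p (a : ℚ) = vv p (b : ℚ) + vv p (μ : ℚ) := by
      rw [h1]
      exact NormAux.vv_mul p hp hb0 μ.ne_zero
    have h3 : ω (vv p (a : ℚ)) = ω (vv p (b : ℚ)) := by
      refine hωeq _ _ ⟨μ, hμ, ?_⟩
      rw [h2, add_sub_cancel_left]
    have h4 : μ * f (vv p (b : ℚ)) * (f (vv p (a : ℚ)))⁻¹ = 1 := by
      refine hM _ (M.mul_mem (M.mul_mem hμ (hfM _)) (M.inv_mem (hfM _))) ?_
      rw [NormAux.vv_unit_mul p hp, NormAux.vv_unit_mul p hp, NormAux.vv_unit_inv p hp, hf, hf, h3,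
        h2]
      abel
    have h5 : (f (vv p (a : ℚ)))⁻¹ = μ⁻¹ * (f (vv p (b : ℚ)))⁻¹ := by
      have h6 : (μ * f (vv p (b : ℚ)))⁻¹ = (f (vv p (a : ℚ)))⁻¹ := inv_eq_of_mul_eq_one_right h4
      rw [← h6, mul_inv]
    show (a : ℚ) * (((f (vv p (a : ℚ)))⁻¹ : ℚˣ) : ℚ) = (b : ℚ) * (((f (vv p (b : ℚ)))⁻¹ : ℚˣ) : ℚ)
    rw [h5, Units.val_mul, h1]
    have h7 : ((μ : ℚˣ) : ℚ) * ((μ⁻¹ : ℚˣ) : ℚ) = 1 := by
      rw [← Units.val_mul, mul_inv_cancel, Units.val_one]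
    calc (b : ℚ) * (μ : ℚ) * (((μ⁻¹ : ℚˣ) : ℚ) * (((f (vv p (b : ℚ)))⁻¹ : ℚˣ) : ℚ))
        = (b : ℚ) * (((μ : ℚˣ) : ℚ) * ((μ⁻¹ : ℚˣ) : ℚ)) * (((f (vv p (b : ℚ)))⁻¹ : ℚˣ) : ℚ) := by
          ring
      _ = (b : ℚ) * (((f (vv p (b : ℚ)))⁻¹ : ℚˣ) : ℚ) := by rw [h7, mul_one]
  have hYm : (A.image y).card ≤ m := (NormAux.card_image_le_of_factor A cls y hF1).trans hm
  refine ⟨A.image y, hYm, ?_⟩
  intro x hx
  have hxq : (x : ℚ) ≠ 0 := by exact_mod_cast hx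
  have hkey : ∀ a b : ℤ, vv p (a : ℚ) = vv p (b : ℚ) → a - b = x →
      y a - y b = (x : ℚ) * (((f (vv p (a : ℚ)))⁻¹ : ℚˣ) : ℚ) := by
    intro a b hab hx'
    show (a : ℚ) * (((f (vv p (a : ℚ)))⁻¹ : ℚˣ) : ℚ) - (b : ℚ) * (((f (vv p (b : ℚ)))⁻¹ : ℚˣ) : ℚ) = _
    rw [← hab, ← sub_mul, ← hx']
    push_cast
    ring
  have hcount : ((A ×ˢ A).filter
      (fun s => vv p (s.1 : ℚ) = vv p (s.2 : ℚ) ∧ s.1 - s.2 = x)).card ≤ (edges M (x : ℚ) (A.image y)).card := by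
    refine Finset.card_le_card_of_injOn (fun s => (y s.1, y s.2)) ?_ ?_
    · intro s hs
      obtain ⟨hs1, hs2, hs3⟩ := Finset.mem_filter.1 (Finset.mem_coe.1 hs)
      obtain ⟨ha, hb⟩ := Finset.mem_product.1 hs1
      refine Finset.mem_coe.2 (mem_edges.2
        ⟨⟨Finset.mem_image_of_mem y ha, Finset.mem_image_of_mem y hb⟩, ?_⟩)
      exact ⟨(f (vv p (s.1 : ℚ)))⁻¹, M.inv_mem (hfM _), hkey s.1 s.2 hs2 hs3⟩
    · intro s hs s' hs' hss
      obtain ⟨hs1, hs2, hs3⟩ := Finset.mem_filter.1 (Finset.mem_coe.1 hs)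
      obtain ⟨hs1', hs2', hs3'⟩ := Finset.mem_filter.1 (Finset.mem_coe.1 hs')
      have h1 : y s.1 = y s'.1 := congrArg Prod.fst hss
      have h2 : y s.2 = y s'.2 := congrArg Prod.snd hss
      have h3 := hkey s.1 s.2 hs2 hs3
      rw [h1, h2, hkey s'.1 s'.2 hs2' hs3'] at h3
      have h4 := mul_left_cancel₀ hxq h3
      have h5 : f (vv p (s'.1 : ℚ)) = f (vv p (s.1 : ℚ)) := inv_injective (Units.ext h4)
      have h6 : (s.1 : ℚ) = (s'.1 : ℚ) := by
        rw [hy s.1, hy s'.1, h1, h5]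
      have h7 : (s.2 : ℚ) = (s'.2 : ℚ) := by
        rw [hy s.2, hy s'.2, h2, ← hs2, ← hs2', h5]
      exact Prod.ext (by exact_mod_cast h6) (by exact_mod_cast h7)
  exact hcount

theorem en_group_one : ∀ (g : Fin 1 → ℝ), (∀ i, g i ≠ 0) →
    ∀ A : Finset ℤ, (∀ a ∈ A, 0 < a) → ∀ (x : ℤ → ℝ) (E : ℤ → Fin 1 → ℤ),
    (∀ a ∈ A, (a : ℝ) = x a * ∏ i, g i ^ E a i) → ∀ m : ℕ, (A.image x).card ≤ m →
    en A ≤ 68 * (A.card ^ 2 + 2 * m * Nat.log 2 m * (A.card * m)) := by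
  classical
  intro g hg A hpos x E hA m hm
  obtain ⟨p, M, hp, hM, hcls⟩ := exists_group g hg A hpos x E hA
  obtain ⟨Y, hY, hcount⟩ := exists_norm p hp M hM A hpos x hcls m hm
  have hM' : ∀ μ ∈ M, padicValRat (p 0) ((μ : ℚˣ) : ℚ) = 0 → μ = 1 := by
    intro μ hμ h
    apply hM μ hμ
    funext k
    have : k = 0 := Subsingleton.elim _ _
    rw [this]
    exact h
  have hPV : ∀ s : ℤ × ℤ, s ∈ PV A (vn p) 1 ↔
      (s ∈ A ×ˢ A ∧ vv p (s.1 : ℚ) = vv p (s.2 : ℚ)) := by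
    intro s
    rw [PV, mem_filter, vn_all]
  have h1 := en_le_PV A (vn p) 1 (vn_ult p hp A hpos)
  have hcard : (PV A (vn p) 1).card ≤ A.card * m := by
    calc (PV A (vn p) 1).card = ∑ a ∈ A, ((PV A (vn p) 1).filter (fun s => s.1 = a)).card := by
          apply card_eq_sum_card_fiberwise
          intro s hs
          have := (hPV s).1 hs
          rw [mem_product] at this
          exact this.1.1
      _ ≤ ∑ a ∈ A, m := by
          refine sum_le_sum fun a ha => ?_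
          refine le_trans ?_ (card_level p hp M hM A hpos x hcls m hm (vv p (a : ℚ)))
          refine card_le_card_of_injOn (fun s => s.2) ?_ ?_
          · intro s hs
            rw [mem_coe, mem_filter, hPV, mem_product] at hs
            rw [mem_coe, mem_filter]
            refine ⟨hs.1.1.2, ?_⟩
            rw [← hs.1.2, hs.2]
          · intro s hs s' hs' hss
            rw [mem_coe, mem_filter] at hs hs'
            exact Prod.ext (hs.2.trans hs'.2.symm) hss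
      _ = A.card * m := by rw [sum_const, smul_eq_mul]
  have hrp : ∀ z : ℤ, z ≠ 0 → rp (PV A (vn p) 1) z ≤ 2 * m * Nat.log 2 m := by
    intro z hz
    have h3 : rp (PV A (vn p) 1) z = ((A ×ˢ A).filter
        (fun s => vv p (s.1 : ℚ) = vv p (s.2 : ℚ) ∧ s.1 - s.2 = z)).card := by
      unfold rp
      congr 1
      ext s
      rw [mem_filter, hPV, mem_filter]
      tauto
    rw [h3]
    refine (hcount z hz).trans ((card_edges (p 0) (hp 0) M hM' (z : ℚ) (by exact_mod_cast hz)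
      Y.card Y rfl).trans ?_)
    exact Nat.mul_le_mul (Nat.mul_le_mul_left _ hY) (Nat.log_mono_right hY)
  have hz0 : rp (PV A (vn p) 1) 0 ≤ A.card := by
    unfold rp
    refine card_le_card_of_injOn (fun s => s.1) ?_ ?_
    · intro s hs
      rw [mem_coe, mem_filter, hPV, mem_product] at hs
      exact hs.1.1.1
    · intro s hs s' hs' hss
      rw [mem_coe, mem_filter] at hs hs'
      have e1 := hs.2
      have e2 := hs'.2
      simp only at hss
      exact Prod.ext hss (by linarith)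
  have hdiag : ((PV A (vn p) 1).filter (fun s => s.1 - s.2 = 0)).card ≤ A.card := hz0
  have hip : ip (PV A (vn p) 1) (PV A (vn p) 1) ≤
      A.card ^ 2 + 2 * m * Nat.log 2 m * (A.card * m) := by
    rw [ip_eq_sum]
    rw [← sum_filter_add_sum_filter_not _ (fun s : ℤ × ℤ => s.1 - s.2 = 0)]
    refine Nat.add_le_add ?_ ?_
    · calc ∑ s ∈ (PV A (vn p) 1).filter (fun s => s.1 - s.2 = 0),
            rp (PV A (vn p) 1) (s.1 - s.2)
          ≤ ∑ s ∈ (PV A (vn p) 1).filter (fun s => s.1 - s.2 = 0), A.card := by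
            refine sum_le_sum fun s hs => ?_
            rw [(mem_filter.1 hs).2]
            exact hz0
        _ = ((PV A (vn p) 1).filter (fun s => s.1 - s.2 = 0)).card * A.card := by
            rw [sum_const, smul_eq_mul]
        _ ≤ A.card * A.card := Nat.mul_le_mul_right _ hdiag
        _ = A.card ^ 2 := by ring
    · calc ∑ s ∈ (PV A (vn p) 1).filter (fun s => ¬ s.1 - s.2 = 0),
            rp (PV A (vn p) 1) (s.1 - s.2)
          ≤ ∑ s ∈ (PV A (vn p) 1).filter (fun s => ¬ s.1 - s.2 = 0), 2 * m * Nat.log 2 m :=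
            sum_le_sum fun s hs => hrp _ (mem_filter.1 hs).2
        _ = ((PV A (vn p) 1).filter (fun s => ¬ s.1 - s.2 = 0)).card * (2 * m * Nat.log 2 m) := by
            rw [sum_const, smul_eq_mul]
        _ ≤ (A.card * m) * (2 * m * Nat.log 2 m) :=
            Nat.mul_le_mul_right _ ((card_le_card (filter_subset _ _)).trans hcard)
        _ = 2 * m * Nat.log 2 m * (A.card * m) := by ring
  calc en A ≤ 68 ^ 1 * ip (PV A (vn p) 1) (PV A (vn p) 1) := h1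
    _ ≤ 68 * (A.card ^ 2 + 2 * m * Nat.log 2 m * (A.card * m)) := by
        rw [pow_one]
        exact Nat.mul_le_mul_left _ hip

end Pool.Agent.Lib.SGP
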