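import Pool.Agent.Lib.SGP.Egr
import Pool.Agent.Lib.SGP.Norm1
import Pool.Agent.Lib.CSid.Sid
import Pool.Agent.Lib.CSid.Neg

/-!
# Additive Sidon subsets of sets covered by few cosets of a multiplicative group
-/

set_option autoImplicit false

namespace Pool.Agent.Lib.SGP

open Finset Pool.Agent.Lib.CSid

/-- `A` is covered by the cosets `x Γ`, `x ∈ X`, of the group `Γ` generated by the numbers `g i` -/
def InCosets {r : ℕ} (g : Fin r → ℝ) (X : Finset ℝ) (A : Finset ℤ) : Prop :=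
  ∀ a ∈ A, ∃ x ∈ X, ∃ e : Fin r → ℤ, (a : ℝ) = x * ∏ i, g i ^ e i

/-- additive Sidon subsets of sets of positive integers, from an energy bound -/
theorem posG {r : ℕ} (C : ℝ) (hC1 : 1 ≤ C) (Φ : ℕ → ℝ) (hΦ : ∀ m, 0 ≤ Φ m)
    (hC : ∀ (g : Fin r → ℝ), (∀ i, g i ≠ 0) →
    ∀ A : Finset ℤ, (∀ a ∈ A, 0 < a) → ∀ (x : ℤ → ℝ) (E : ℤ → Fin r → ℤ),
    (∀ a ∈ A, (a : ℝ) = x a * ∏ i, g i ^ E a i) → ∀ m : ℕ, (A.image x).card ≤ m →
    (en A : ℝ) ≤ C * ((A.card : ℝ) ^ 2 + Φ m * A.card)) (g : Fin r → ℝ) (hg : ∀ i, g i ≠ 0)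
    (A : Finset ℤ) (hne : A.Nonempty) (hpos : ∀ a ∈ A, 0 < a) (X : Finset ℝ)
    (hX : InCosets g X A) :
    ∃ B ⊆ A, AddSidon B ∧ (A.card : ℝ) ≤
      8 * C * ((A.card : ℝ) + Φ X.card) ^ (1 / 3 : ℝ) * B.card := by
  classical
  have hX' : ∀ a : ℤ, ∃ (x : ℝ) (e : Fin r → ℤ), a ∈ A → x ∈ X ∧ (a : ℝ) = x * ∏ i, g i ^ e i := by
    intro a
    by_cases ha : a ∈ A
    · obtain ⟨x, hx, e, h⟩ := hX a ha
      exact ⟨x, e, fun _ => ⟨hx, h⟩⟩
    · exact ⟨0, 0, fun h => absurd h ha⟩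
  choose x E hxE using hX'
  have himg : (A.image x).card ≤ X.card := by
    apply card_le_card
    intro y hy
    obtain ⟨a, ha, rfl⟩ := mem_image.1 hy
    exact (hxE a ha).1
  have hE := hC g hg A hpos x E (fun a ha => (hxE a ha).2) X.card himg
  have hn1 : (1 : ℝ) ≤ A.card := by exact_mod_cast card_pos.2 hne
  have hn0 : (0 : ℝ) < A.card := by linarith
  set n : ℝ := (A.card : ℝ) with hn
  set M : ℝ := Φ X.card with hM
  have hM0 : 0 ≤ M := hΦ _
  set w : ℝ := (n + M) ^ (1 / 3 : ℝ) with hw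
  have hw1 : 1 ≤ w := Real.one_le_rpow (by linarith) (by norm_num)
  have hw3 : w ^ 3 = n + M := by
    rw [hw, ← Real.rpow_natCast, ← Real.rpow_mul (by positivity)]
    norm_num
  set μ : ℕ := ⌈2 * C * w⌉₊ with hμ
  have hCw : 1 ≤ 2 * C * w := by nlinarith
  have hμ1 : 2 * C * w ≤ μ := Nat.le_ceil _
  have hμ2 : (μ : ℝ) ≤ 2 * (2 * C * w) := by
    have := Nat.ceil_lt_add_one (by linarith : 0 ≤ 2 * C * w)
    linarith
  have h8 : 8 * en A ≤ A.card * μ ^ 3 := by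
    have : (8 : ℝ) * en A ≤ n * (μ : ℝ) ^ 3 := by
      have hC3 : C ≤ C ^ 3 := by
        calc C = C ^ 1 := (pow_one C).symm
          _ ≤ C ^ 3 := pow_le_pow_right₀ hC1 (by norm_num)
      calc (8 : ℝ) * en A ≤ 8 * (C * (n ^ 2 + M * n)) := by linarith
        _ = 8 * C * (n * (n + M)) := by ring
        _ ≤ 8 * C ^ 3 * (n * (n + M)) := by gcongr
        _ = n * (2 * C * w) ^ 3 := by rw [mul_pow, hw3]; ring
        _ ≤ n * (μ : ℝ) ^ 3 := by gcongr
    rw [hn] at this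
    exact_mod_cast this
  obtain ⟨B, hB, hS, hc⟩ := addSidon_of_en A μ (Nat.ceil_pos.2 (by linarith)) h8
  refine ⟨B, hB, hS, ?_⟩
  calc n ≤ 2 * μ * B.card := hc
    _ ≤ 2 * (2 * (2 * C * w)) * B.card := by gcongr
    _ = 8 * C * w * B.card := by ring

lemma InCosets.subset {r : ℕ} {g : Fin r → ℝ} {X : Finset ℝ} {A A' : Finset ℤ}
    (h : InCosets g X A) (hA : A' ⊆ A) : InCosets g X A' := fun a ha => h a (hA ha)

lemma InCosets.neg {r : ℕ} {g : Fin r → ℝ} {X : Finset ℝ} {A : Finset ℤ}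
    (h : InCosets g X A) : InCosets g (X.image (fun x => -x)) (A.image (fun a => -a)) := by
  intro a ha
  obtain ⟨b, hb, rfl⟩ := mem_image.1 ha
  obtain ⟨x, hx, e, h1⟩ := h b hb
  refine ⟨-x, mem_image.2 ⟨x, hx, rfl⟩, e, ?_⟩
  push_cast
  rw [h1]
  ring

/-- the general case, from an energy bound -/
theorem wrapG {r : ℕ} (C : ℝ) (hC1 : 1 ≤ C) (Φ : ℕ → ℝ) (hΦ : ∀ m, 0 ≤ Φ m)
    (hC0 : ∀ (g : Fin r → ℝ), (∀ i, g i ≠ 0) →
    ∀ A : Finset ℤ, (∀ a ∈ A, 0 < a) → ∀ (x : ℤ → ℝ) (E : ℤ → Fin r → ℤ),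
    (∀ a ∈ A, (a : ℝ) = x a * ∏ i, g i ^ E a i) → ∀ m : ℕ, (A.image x).card ≤ m →
    (en A : ℝ) ≤ C * ((A.card : ℝ) ^ 2 + Φ m * A.card)) (g : Fin r → ℝ) (hg : ∀ i, g i ≠ 0)
    (A : Finset ℤ) (X : Finset ℝ) (hX : InCosets g X A) :
    ∃ B ⊆ A, AddSidon B ∧
      1 / (3 * (8 * C)) * A.card / ((A.card : ℝ) + Φ X.card) ^ (1 / 3 : ℝ) ≤ B.card := by
  classical
  have hC := posG C hC1 Φ hΦ hC0
  set C' : ℝ := 8 * C with hC'
  have hC'1 : 1 ≤ C' := by linarith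
  set M : ℝ := Φ X.card with hM
  have hM0 : 0 ≤ M := hΦ _
  have conclude : ∀ (n' : ℕ) (b : ℝ), 0 < n' → n' ≤ A.card → A.card ≤ 3 * n' → 0 ≤ b →
      (n' : ℝ) ≤ C' * ((n' : ℝ) + M) ^ (1 / 3 : ℝ) * b →
      1 / (3 * C') * A.card / ((A.card : ℝ) + M) ^ (1 / 3 : ℝ) ≤ b := by
    intro n' b hn' hle1 hle hb0 hb
    have hnA : (0 : ℝ) < A.card := by
      have : 0 < A.card := lt_of_lt_of_le hn' hle1
      exact_mod_cast this
    have h1 : ((n' : ℝ) + M) ^ (1 / 3 : ℝ) ≤ ((A.card : ℝ) + M) ^ (1 / 3 : ℝ) := by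
      apply Real.rpow_le_rpow (by positivity) _ (by norm_num)
      have : (n' : ℝ) ≤ A.card := by exact_mod_cast hle1
      linarith
    rw [div_le_iff₀ (by positivity)]
    calc 1 / (3 * C') * A.card ≤ 1 / (3 * C') * (3 * n') := by
          have : (A.card : ℝ) ≤ 3 * n' := by exact_mod_cast hle
          gcongr
      _ = 1 / C' * n' := by field_simp
      _ ≤ 1 / C' * (C' * ((n' : ℝ) + M) ^ (1 / 3 : ℝ) * b) := by gcongr
      _ = ((n' : ℝ) + M) ^ (1 / 3 : ℝ) * b := by field_simp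
      _ ≤ ((A.card : ℝ) + M) ^ (1 / 3 : ℝ) * b := by gcongr
      _ = b * ((A.card : ℝ) + M) ^ (1 / 3 : ℝ) := by ring
  rcases A.eq_empty_or_nonempty with rfl | hne
  · exact ⟨∅, Subset.refl _, addSidon_of_card_le_one (by simp), by simp⟩
  by_cases h1 : A.card ≤ 1
  · refine ⟨A, Subset.refl _, addSidon_of_card_le_one h1, ?_⟩
    have hA1 : A.card = 1 := le_antisymm h1 (card_pos.2 hne)
    apply conclude 1 A.card (by norm_num) (by omega) (by omega) (by positivity)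
    rw [hA1]
    have : (1 : ℝ) ≤ (((1 : ℕ) : ℝ) + M) ^ (1 / 3 : ℝ) :=
      Real.one_le_rpow (by push_cast; linarith) (by norm_num)
    push_cast at this ⊢
    nlinarith
  push Not at h1
  set Ap := A.filter (fun a => 0 < a) with hAp
  set An := A.filter (fun a => a < 0) with hAn
  have hcovc : A.card ≤ Ap.card + An.card + 1 := by
    have h1 : A ⊆ Ap ∪ An ∪ {0} := by
      intro a ha
      rw [mem_union, mem_union, mem_singleton, hAp, hAn, mem_filter, mem_filter]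
      rcases lt_trichotomy a 0 with h | h | h
      · left; right; exact ⟨ha, h⟩
      · right; exact h
      · left; left; exact ⟨ha, h⟩
    have h2 := card_le_card h1
    have h3 := card_union_le (Ap ∪ An) {0}
    have h4 := card_union_le Ap An
    rw [card_singleton] at h3
    omega
  rcases le_total An.card Ap.card with h | h
  · have hne : Ap.Nonempty := card_pos.1 (by omega)
    obtain ⟨B, hB, hBS, hBc⟩ := hC g hg Ap hne (fun a ha => (mem_filter.1 ha).2) X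
      (hX.subset (filter_subset _ _))
    exact ⟨B, hB.trans (filter_subset _ _), hBS,
      conclude Ap.card B.card (card_pos.2 hne) (card_le_card (filter_subset _ _)) (by omega)
        (by positivity) hBc⟩
  · have hc1 : (An.image (fun a => -a)).card = An.card := card_image_of_injective _ neg_injective
    have hne : (An.image (fun a => -a)).Nonempty := card_pos.1 (by omega)
    have hXc : (X.image (fun x => -x)).card = X.card := card_image_of_injective _ neg_injective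
    obtain ⟨B, hB, hBS, hBc⟩ := hC g hg (An.image (fun a => -a)) hne (fun a ha => by
        obtain ⟨b, hb, rfl⟩ := mem_image.1 ha
        have := (mem_filter.1 hb).2
        omega) _ (hX.subset (filter_subset _ _)).neg
    rw [hc1, hXc] at hBc
    refine ⟨B.image (fun a => -a), ?_, hBS.neg, ?_⟩
    · intro a ha
      obtain ⟨b, hb, rfl⟩ := mem_image.1 ha
      obtain ⟨c, hc', rfl⟩ := mem_image.1 (hB hb)
      rw [neg_neg]
      exact (mem_filter.1 hc').1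
    · rw [card_image_of_injective _ neg_injective]
      exact conclude An.card B.card (by omega) (card_le_card (filter_subset _ _)) (by omega)
        (by positivity) hBc

theorem mainG (r : ℕ) : ∃ c : ℝ, 0 < c ∧ ∀ (g : Fin r → ℝ), (∀ i, g i ≠ 0) →
    ∀ (A : Finset ℤ) (X : Finset ℝ), InCosets g X A →
    ∃ B ⊆ A, AddSidon B ∧
      c * A.card / ((A.card : ℝ) + (X.card : ℝ) ^ (3 - 1 / ((r : ℝ) + 1))) ^ (1 / 3 : ℝ) ≤
        B.card := by
  obtain ⟨C, hC1, hC⟩ := en_group r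
  refine ⟨1 / (3 * (8 * C)), by positivity, ?_⟩
  intro g hg A X hX
  exact wrapG C hC1 (fun m => (m : ℝ) ^ (3 - 1 / ((r : ℝ) + 1))) (fun m => by positivity)
    hC g hg A X hX

theorem mainG1 : ∃ c : ℝ, 0 < c ∧ ∀ g : ℝ, g ≠ 0 →
    ∀ (A : Finset ℤ) (X : Finset ℝ), (∀ a ∈ A, ∃ x ∈ X, ∃ e : ℤ, (a : ℝ) = x * g ^ e) →
    ∃ B ⊆ A, AddSidon B ∧
      c * A.card / ((A.card : ℝ) + (X.card : ℝ) ^ 2 * Real.logb 2 (2 * X.card)) ^ (1 / 3 : ℝ) ≤
        B.card := by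
  refine ⟨1 / (3 * (8 * 136)), by positivity, ?_⟩
  intro g hg A X hX
  have hlog : ∀ m : ℕ, 1 ≤ m → (Nat.log 2 m : ℝ) ≤ Real.logb 2 (2 * m) := by
    intro m hm
    have h1 : (Nat.log 2 m : ℝ) ≤ Real.logb 2 m := by
      have := Real.natLog_le_logb m 2
      exact_mod_cast this
    refine h1.trans ?_
    apply Real.logb_le_logb_of_le (by norm_num) (by exact_mod_cast hm)
    have : (0 : ℝ) ≤ m := by positivity
    linarith
  have hnn : ∀ m : ℕ, 0 ≤ (m : ℝ) ^ 2 * Real.logb 2 (2 * m) := by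
    intro m
    rcases Nat.eq_zero_or_pos m with h0 | h0
    · subst h0
      simp
    · have : (1 : ℝ) ≤ m := by exact_mod_cast h0
      have h2 : 0 ≤ Real.logb 2 (2 * m) := Real.logb_nonneg (by norm_num) (by linarith)
      positivity
  have hX' : InCosets (fun _ : Fin 1 => g) X A := by
    intro a ha
    obtain ⟨x, hx, e, h⟩ := hX a ha
    exact ⟨x, hx, fun _ => e, by simpa using h⟩
  refine wrapG (r := 1) 136 (by norm_num) (fun m => (m : ℝ) ^ 2 * Real.logb 2 (2 * m)) hnn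
    ?_ (fun _ => g) (fun _ => hg) A X hX'
  intro g hg A hpos x E hA m hm
  have h1 := en_group_one g hg A hpos x E hA m hm
  have h2 : (en A : ℝ) ≤ 68 * ((A.card : ℝ) ^ 2 + 2 * m * (Nat.log 2 m : ℝ) * (A.card * m)) := by
    exact_mod_cast h1
  have h3 : (m : ℝ) ^ 2 * (Nat.log 2 m : ℝ) ≤ (m : ℝ) ^ 2 * Real.logb 2 (2 * m) := by
    rcases Nat.eq_zero_or_pos m with h0 | h0
    · subst h0
      simp
    · have := hlog m h0
      gcongr
  calc (en A : ℝ) ≤ 68 * ((A.card : ℝ) ^ 2 + 2 * m * (Nat.log 2 m : ℝ) * (A.card * m)) := h2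
    _ = 68 * (A.card : ℝ) ^ 2 + 136 * ((m : ℝ) ^ 2 * (Nat.log 2 m : ℝ)) * A.card := by ring
    _ ≤ 136 * (A.card : ℝ) ^ 2 + 136 * ((m : ℝ) ^ 2 * Real.logb 2 (2 * m)) * A.card := by
        gcongr
        norm_num
    _ = 136 * ((A.card : ℝ) ^ 2 + (m : ℝ) ^ 2 * Real.logb 2 (2 * m) * A.card) := by ring

end Pool.Agent.Lib.SGP
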