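import Pool.Agent.Lib.CSid.Energy

/-!
# A square function inequality for several valuations, in counting form

`PV A v k` is the set of pairs in `A × A` with the same values of `v 0, ..., v (k - 1)`; `ip`, `rp`, `en` are defined in
`Pool/Agent/Lib/CSid/Energy.lean` (`ip P Q` = number of `(s, t) ∈ P × Q` with `s.1 - s.2 = t.1 - t.2`).

Proof of `ip_PV_step`. Put `R = PV A v k`, `E = PV A v (k + 1)` (the pairs of `R` with `v k s.1 = v k s.2`),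
`L = {s ∈ R : v k s.1 < v k s.2}`, `G = {s ∈ R : v k s.2 < v k s.1}`. By `ip_three`
`ip R R ≤ 2 ip E E + 4 ip L L + 4 ip G G`. Claim: `ip L L ≤ ip E R` (and `ip G G = ip L L` by exchanging the
entries of all pairs). An element of `ip L L` is `((a, b), (c, d))` with `a ~ b`, `c ~ d` (`~`: the same values of
`v 0, ..., v (k - 1)`), `v k a < v k b`, `v k c < v k d`, `a - b = c - d`; by `hult` `v k a = v k c`. Send it to
`((a, d), (c, b))` (injective). Let `Z = {(a, d) ∈ A × A : v k a < v k d}` (note `v k a = v k c < v k d` and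
`v k c = v k a < v k b`) and let the key of `(a, d)` be `κ (a, d) = (⟨a⟩, ⟨d⟩, v k a, a + d)`, where `⟨a⟩` is the function
`i ↦ v i a`, `i < k` (e.g. as an element of `Fin k → ℕ`). Then `κ (a, d) = σ (κ (c, b))` where `σ` exchanges the first
two entries (`a + d = c + b`). So `ip L L ≤ ∑ over keys f (key) * f (σ key) ≤ ∑ f (key) ^ 2` with `f` the number of
elements of `Z` with the given key (`2 x y ≤ x² + y²`, and `σ` is an involution of the set of keys), and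
`∑ f ^ 2` is the number of `((a, d), (a', d')) ∈ Z × Z` with the same key; `((a, d), (a', d')) ↦ ((a, a'), (d', d))` maps
them injectively to the set counted by `ip E R` (`a ~ a'`, `v k a = v k a'`, `d' ~ d`, `a - a' = d' - d`).
So `ip R R ≤ 2 ip E E + 8 ip E R`, and `ip E R ^ 2 ≤ ip E E * ip R R` by `ip_sq_le`. With real numbers `x = ip R R`,
`y = ip E E`, `x ≤ 2 y + 8 √(x y)`: hence `x ≤ 68 y` (if `x > 68 y` then `y < x / 68` and
`2 y + 8 √(x y) < x (2 / 68 + 8 / √68) < x`, as `√68 > 8.246`; or: `8 √(x y) ≤ x (1 - 1/34) + (16 / (33/34)) y`, ...).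
`en_le_PV`: induction on `r`; `en A = ip (A ×ˢ A) (A ×ˢ A)` and `PV A v 0 = A ×ˢ A`.
-/

set_option autoImplicit false

namespace Pool.Agent.Lib.SGP

open Finset Pool.Agent.Lib.CSid

/-- pairs with the same values of `v 0, ..., v (k - 1)` -/
def PV (A : Finset ℤ) (v : ℕ → ℤ → ℕ) (k : ℕ) : Finset (ℤ × ℤ) :=
  (A ×ˢ A).filter (fun s => ∀ i < k, v i s.1 = v i s.2)

namespace SqAux

lemma card_inv_le {ι K : Type*} [DecidableEq ι] [DecidableEq K] (Z : Finset ι) (κ : ι → K)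
    (σ : K → K) (hσ : ∀ x, σ (σ x) = x) :
    ((Z ×ˢ Z).filter (fun q => κ q.1 = σ (κ q.2))).card ≤
      ((Z ×ˢ Z).filter (fun q => κ q.1 = κ q.2)).card := by
  classical
  set D : Finset K := Z.image κ ∪ Z.image (fun p => σ (κ p)) with hD
  have hDσ : ∀ x ∈ D, σ x ∈ D := by
    intro x hx
    rw [hD, mem_union, mem_image, mem_image] at hx
    rw [hD, mem_union, mem_image, mem_image]
    rcases hx with ⟨p, hp, rfl⟩ | ⟨p, hp, rfl⟩
    · exact Or.inr ⟨p, hp, rfl⟩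
    · exact Or.inl ⟨p, hp, (hσ _).symm⟩
  let f : K → ℕ := fun x => (Z.filter (fun p => κ p = x)).card
  have h1 : ((Z ×ˢ Z).filter (fun q => κ q.1 = σ (κ q.2))).card = ∑ x ∈ D, f x * f (σ x) := by
    have hm : ∀ q ∈ (Z ×ˢ Z).filter (fun q => κ q.1 = σ (κ q.2)), κ q.1 ∈ D := by
      intro q hq
      exact mem_union_left _ (mem_image_of_mem κ (mem_product.1 (mem_filter.1 hq).1).1)
    rw [card_eq_sum_card_fiberwise hm]
    refine sum_congr rfl fun x _ => ?_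
    rw [← card_product]
    refine congrArg card ?_
    ext ⟨p, q⟩
    simp only [mem_filter, mem_product]
    constructor
    · rintro ⟨⟨⟨hp, hq⟩, h⟩, hx⟩
      refine ⟨⟨hp, hx⟩, hq, ?_⟩
      rw [← hx, h, hσ]
    · rintro ⟨⟨hp, hx⟩, hq, h⟩
      refine ⟨⟨⟨hp, hq⟩, ?_⟩, hx⟩
      rw [hx, h, hσ]
  have h2 : ((Z ×ˢ Z).filter (fun q => κ q.1 = κ q.2)).card = ∑ x ∈ D, f x * f x := by
    have hm : ∀ q ∈ (Z ×ˢ Z).filter (fun q => κ q.1 = κ q.2), κ q.1 ∈ D := by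
      intro q hq
      exact mem_union_left _ (mem_image_of_mem κ (mem_product.1 (mem_filter.1 hq).1).1)
    rw [card_eq_sum_card_fiberwise hm]
    refine sum_congr rfl fun x _ => ?_
    rw [← card_product]
    refine congrArg card ?_
    ext ⟨p, q⟩
    simp only [mem_filter, mem_product]
    constructor
    · rintro ⟨⟨⟨hp, hq⟩, h⟩, hx⟩
      exact ⟨⟨hp, hx⟩, hq, by rw [← hx, h]⟩
    · rintro ⟨⟨hp, hx⟩, hq, h⟩
      exact ⟨⟨⟨hp, hq⟩, by rw [hx, h]⟩, hx⟩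
  have h3 : ∑ x ∈ D, f (σ x) * f (σ x) = ∑ x ∈ D, f x * f x :=
    sum_bij' (fun x _ => σ x) (fun x _ => σ x) hDσ hDσ (fun x _ => hσ x) (fun x _ => hσ x)
      (fun x _ => rfl)
  have h4 : 2 * ∑ x ∈ D, f x * f (σ x) ≤
      ∑ x ∈ D, f x * f x + ∑ x ∈ D, f (σ x) * f (σ x) := by
    rw [mul_sum, ← sum_add_distrib]
    refine sum_le_sum fun x _ => ?_
    have := two_mul_le_add_sq (f x) (f (σ x))
    nlinarith
  rw [h1, h2]
  omega

lemma mem_PV (A : Finset ℤ) (v : ℕ → ℤ → ℕ) (k : ℕ) (a b : ℤ) :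
    (a, b) ∈ PV A v k ↔ (a ∈ A ∧ b ∈ A) ∧ ∀ i < k, v i a = v i b := by
  unfold PV
  rw [mem_filter, mem_product]

/-- the pairs of `PV A v k` with increasing `v k` -/
def Lo (A : Finset ℤ) (v : ℕ → ℤ → ℕ) (k : ℕ) : Finset (ℤ × ℤ) :=
  (PV A v k).filter (fun s => v k s.1 < v k s.2)

/-- the pairs of `PV A v k` with decreasing `v k` -/
def Up (A : Finset ℤ) (v : ℕ → ℤ → ℕ) (k : ℕ) : Finset (ℤ × ℤ) :=
  (PV A v k).filter (fun s => v k s.2 < v k s.1)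

lemma up_le_lo (A : Finset ℤ) (v : ℕ → ℤ → ℕ) (k : ℕ) :
    ip (Up A v k) (Up A v k) ≤ ip (Lo A v k) (Lo A v k) := by
  unfold ip
  refine card_le_card_of_injOn (fun s => ((s.1.2, s.1.1), (s.2.2, s.2.1))) ?_ ?_
  · rintro ⟨⟨a, b⟩, ⟨a', b'⟩⟩ hs
    simp only [mem_coe, mem_filter, mem_product, Up, Lo, mem_PV] at hs ⊢
    obtain ⟨⟨⟨⟨⟨ha, hb⟩, h1⟩, hab⟩, ⟨⟨ha', hb'⟩, h2⟩, hab'⟩, he⟩ := hs
    exact ⟨⟨⟨⟨⟨hb, ha⟩, fun i hi => (h1 i hi).symm⟩, hab⟩,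
      ⟨⟨hb', ha'⟩, fun i hi => (h2 i hi).symm⟩, hab'⟩, by linarith⟩
  · rintro ⟨⟨a, b⟩, ⟨a', b'⟩⟩ _ ⟨⟨c, d⟩, ⟨c', d'⟩⟩ _ h
    simp only [Prod.mk.injEq] at h ⊢
    tauto

/-- the key of a pair -/
def key (v : ℕ → ℤ → ℕ) (k : ℕ) (p : ℤ × ℤ) : ((Fin k → ℕ) × (Fin k → ℕ)) × (ℕ × ℤ) :=
  ((fun i => v i p.1, fun i => v i p.2), (v k p.1, p.1 + p.2))

lemma lo_le (A : Finset ℤ) (v : ℕ → ℤ → ℕ) (k : ℕ)
    (hult : ∀ a ∈ A, ∀ b ∈ A, ∀ c ∈ A, ∀ d ∈ A, v k a < v k b → v k c < v k d → a - b = c - d →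
      v k a = v k c) :
    ip (Lo A v k) (Lo A v k) ≤ ip (PV A v (k + 1)) (PV A v k) := by
  classical
  set Z : Finset (ℤ × ℤ) := (A ×ˢ A).filter (fun p => v k p.1 < v k p.2) with hZ
  have s1 : ip (Lo A v k) (Lo A v k) ≤
      ((Z ×ˢ Z).filter (fun q => key v k q.1 =
        (fun x : ((Fin k → ℕ) × (Fin k → ℕ)) × (ℕ × ℤ) => (x.1.swap, x.2)) (key v k q.2))).card := by
    unfold ip
    refine card_le_card_of_injOn (fun s => ((s.1.1, s.2.2), (s.2.1, s.1.2))) ?_ ?_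
    · rintro ⟨⟨a, b⟩, ⟨c, d⟩⟩ hs
      simp only [mem_coe, mem_filter, mem_product, Lo, mem_PV, hZ, key, Prod.swap,
        Prod.mk.injEq] at hs ⊢
      obtain ⟨⟨⟨⟨⟨ha, hb⟩, h1⟩, hab⟩, ⟨⟨hc, hd⟩, h2⟩, hcd⟩, he⟩ := hs
      have hv := hult a ha b hb c hc d hd hab hcd he
      refine ⟨⟨⟨⟨ha, hd⟩, by omega⟩, ⟨hc, hb⟩, by omega⟩, ⟨?_, ?_⟩, hv, by linarith⟩
      · funext i
        exact h1 i i.2
      · funext i
        exact (h2 i i.2).symm
    · rintro ⟨⟨a, b⟩, ⟨a', b'⟩⟩ _ ⟨⟨c, d⟩, ⟨c', d'⟩⟩ _ h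
      simp only [Prod.mk.injEq] at h ⊢
      tauto
  have s2 := card_inv_le Z (key v k)
    (fun x : ((Fin k → ℕ) × (Fin k → ℕ)) × (ℕ × ℤ) => (x.1.swap, x.2)) (fun x => rfl)
  have s3 : ((Z ×ˢ Z).filter (fun q => key v k q.1 = key v k q.2)).card ≤
      ip (PV A v (k + 1)) (PV A v k) := by
    unfold ip
    refine card_le_card_of_injOn (fun s => ((s.1.1, s.2.1), (s.2.2, s.1.2))) ?_ ?_
    · rintro ⟨⟨a, d⟩, ⟨a', d'⟩⟩ hs
      simp only [mem_coe, mem_filter, mem_product, mem_PV, hZ, key, Prod.mk.injEq] at hs ⊢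
      obtain ⟨⟨⟨⟨ha, hd⟩, had⟩, ⟨ha', hd'⟩, had'⟩, ⟨h1, h2⟩, h3, h4⟩ := hs
      refine ⟨⟨⟨⟨ha, ha'⟩, fun i hi => ?_⟩, ⟨hd', hd⟩, fun i hi => ?_⟩, by linarith⟩
      · rcases Nat.lt_succ_iff_lt_or_eq.1 hi with h | h
        · exact congrFun h1 ⟨i, h⟩
        · rw [h, h3]
      · exact (congrFun h2 ⟨i, hi⟩).symm
    · rintro ⟨⟨a, b⟩, ⟨a', b'⟩⟩ _ ⟨⟨c, d⟩, ⟨c', d'⟩⟩ _ h
      simp only [Prod.mk.injEq] at h ⊢
      tauto
  exact s1.trans (s2.trans s3)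

lemma arith {x y z : ℝ} (hx : 0 ≤ x) (hy : 0 ≤ y) (hz : 0 ≤ z) (h1 : x ≤ 2 * y + 8 * z)
    (h2 : z ^ 2 ≤ y * x) : x ≤ 68 * y := by
  by_contra hcon
  have hcon' : 68 * y < x := not_le.1 hcon
  have g1 : (8.245 * z) ^ 2 ≤ x ^ 2 := by
    have g2 : y * x ≤ (x / 68) * x := mul_le_mul_of_nonneg_right (by linarith) hx
    have g3 : (8.245 * z) ^ 2 ≤ 68 * z ^ 2 := by nlinarith [sq_nonneg z]
    nlinarith
  have g4 : 8.245 * z ≤ x := le_of_sq_le_sq g1 hx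
  nlinarith

end SqAux

open SqAux

theorem ip_PV_step (A : Finset ℤ) (v : ℕ → ℤ → ℕ) (k : ℕ)
    (hult : ∀ a ∈ A, ∀ b ∈ A, ∀ c ∈ A, ∀ d ∈ A, v k a < v k b → v k c < v k d → a - b = c - d →
      v k a = v k c) :
    ip (PV A v k) (PV A v k) ≤ 68 * ip (PV A v (k + 1)) (PV A v (k + 1)) := by
  have hsub : PV A v k ⊆ PV A v (k + 1) ∪ Lo A v k ∪ Up A v k := by
    rintro ⟨a, b⟩ hs
    have hs' := (mem_PV A v k a b).1 hs
    rw [mem_union, mem_union]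
    rcases lt_trichotomy (v k a) (v k b) with h | h | h
    · left; right; exact mem_filter.2 ⟨hs, h⟩
    · left; left
      refine (mem_PV A v (k + 1) a b).2 ⟨hs'.1, fun i hi => ?_⟩
      rcases Nat.lt_succ_iff_lt_or_eq.1 hi with h' | h'
      · exact hs'.2 i h'
      · rw [h']; exact h
    · right; exact mem_filter.2 ⟨hs, h⟩
  have e := ip_three hsub
  have e1 := lo_le A v k hult
  have e2 := up_le_lo A v k
  have e3 := ip_sq_le (PV A v (k + 1)) (PV A v k)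
  have e4 : ip (PV A v k) (PV A v k) ≤ 2 * ip (PV A v (k + 1)) (PV A v (k + 1)) +
      8 * ip (PV A v (k + 1)) (PV A v k) := by omega
  have e5 : (ip (PV A v k) (PV A v k) : ℝ) ≤ 2 * (ip (PV A v (k + 1)) (PV A v (k + 1)) : ℝ) +
      8 * (ip (PV A v (k + 1)) (PV A v k) : ℝ) := by exact_mod_cast e4
  have e6 := arith (Nat.cast_nonneg _) (Nat.cast_nonneg _) (Nat.cast_nonneg _) e5 e3
  exact_mod_cast e6

theorem en_le_PV (A : Finset ℤ) (v : ℕ → ℤ → ℕ) (r : ℕ)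
    (hult : ∀ k < r, ∀ a ∈ A, ∀ b ∈ A, ∀ c ∈ A, ∀ d ∈ A, v k a < v k b → v k c < v k d →
      a - b = c - d → v k a = v k c) :
    en A ≤ 68 ^ r * ip (PV A v r) (PV A v r) := by
  induction r with
  | zero =>
    have h : PV A v 0 = A ×ˢ A := by
      unfold PV
      rw [filter_true_of_mem]
      intro s _ i hi
      exact absurd hi (Nat.not_lt_zero i)
    rw [h, pow_zero, one_mul]
    exact le_rfl
  | succ r ih =>
    have h1 := ih (fun k hk => hult k (Nat.lt_succ_of_lt hk))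
    have h2 := ip_PV_step A v r (hult r (Nat.lt_succ_self r))
    refine h1.trans ((Nat.mul_le_mul_left _ h2).trans (le_of_eq ?_))
    rw [pow_succ, mul_assoc]

end Pool.Agent.Lib.SGP
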